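import Pool.Agent.Helper41.TS.Resid
import Pool.Agent.Helper40.PC.Ord

/-!
# Trace functions of characters of the additive and of the multiplicative group
-/

open Module

namespace Pool.Agent.Helper41.ST

open Pool.Agent.Helper41.TS Pool.Agent.Helper73.KT Pool.Agent.Helper73.HD

/-- the additive group or the multiplicative group -/
inductive Gp where
  | add : Gp
  | mul : Gp

/-- the points of the group over the field `K` -/
def Gp.pts (G : Gp) (K : Type) [Field K] : Set K := match G with
  | .add => Set.univ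
  | .mul => {t | t ≠ 0}

/-- `w` is the trace function of a character of the group of the points over the finite field
`K₀`, nontrivial in the additive case, of order prime to `ℓ` in the multiplicative case -/
def Gp.IsChar (G : Gp) (ℓ : ℕ) {K₀ L : Type} [Field K₀] [Field L]
    (w : ∀ (K : Type) [Field K] [Algebra K₀ K], K → L) : Prop := match G with
  | .add => ∃ χ : AddChar K₀ L, χ ≠ 1 ∧ ∀ (K : Type) [Field K] [Algebra K₀ K] (t : K),
      w K t = χ (Algebra.trace K₀ K t)
  | .mul => ∃ ψ : K₀ˣ →* Lˣ, (∃ N, ¬ ℓ ∣ N ∧ ψ ^ N = 1) ∧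
      ∀ (K : Type) [Field K] [Algebra K₀ K] (t : K), w K t = ev ψ (Algebra.norm K₀ t)

/-- the sum, or the product, of the points of a closed point -/
noncomputable def Gp.val (G : Gp) {k : Type} [Field k] (π : Polynomial k) : k := match G with
  | .add => -π.nextCoeff
  | .mul => (-1) ^ π.natDegree * π.coeff 0

theorem norm_self' {K₀ : Type*} [Field K₀] (x : K₀) : Algebra.norm K₀ x = x := by
  rw [Algebra.norm_self, MonoidHom.id_apply]

section

variable {L K₀ : Type} [Field L] [Field K₀] [Finite K₀] {G : Gp} {ℓ : ℕ}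
    {w : ∀ (K : Type) [Field K] [Algebra K₀ K], K → L}

omit [Finite K₀] in
theorem ev_of_ne (ψ : K₀ˣ →* Lˣ) {x : K₀} (h : x ≠ 0) : ev ψ x = ((ψ (Units.mk0 x h) : Lˣ) : L) := by
  rw [ev, dif_neg h]

/-- the sum of the values -/
theorem sum_zero {κ : Type} [Field κ] [CharP κ ℓ] (M : integralClosure ℤ L →+* κ)
    (hw : G.IsChar ℓ w) (K : Type) [Field K] [Fintype K] [Algebra K₀ K]
    (hK : (Nat.card K : ZMod ℓ) = 1) : res M (∑ t : K, w K t) = 0 := by
  classical
  have hres0 : res M (0 : L) = 0 := by simpa using res_natCast M 0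
  cases G with
  | add =>
    obtain ⟨χ, hχ, hev⟩ := hw
    rw [Finset.sum_congr rfl fun t _ => hev K t]
    let χ' : AddChar K L := χ.compAddMonoidHom (Algebra.trace K₀ K).toAddMonoidHom
    have h1 : χ' ≠ 1 := by
      intro h
      apply hχ
      apply DFunLike.ext
      intro x
      obtain ⟨y, rfl⟩ := Algebra.trace_surjective K₀ K x
      exact DFunLike.congr_fun h y
    have h2 : ∑ t : K, χ (Algebra.trace K₀ K t) = 0 := AddChar.sum_eq_zero_of_ne_one h1
    rw [h2, hres0]
  | mul =>
    obtain ⟨ψ, -, hev⟩ := hw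
    rw [Finset.sum_congr rfl fun t _ => hev K t]
    by_cases hψ : ψ = 1
    · have h1 : ∀ t : K, ev ψ (Algebra.norm K₀ t) = if t = 0 then 0 else 1 := by
        intro t
        split_ifs with h
        · rw [h, Algebra.norm_zero, ev_zero]
        · rw [ev_of_ne ψ (Algebra.norm_ne_zero_iff.2 h), hψ, MonoidHom.one_apply, Units.val_one]
      rw [Finset.sum_congr rfl fun t _ => h1 t, Finset.sum_ite, Finset.sum_const_zero, zero_add,
        Finset.sum_const, nsmul_eq_mul, mul_one, res_natCast]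
      have h2 : (Finset.univ.filter fun t : K => ¬ t = 0).card + 1 = Nat.card K := by
        rw [Finset.filter_not, Finset.filter_eq' Finset.univ (0 : K), if_pos (Finset.mem_univ _),
          Finset.card_sdiff_of_subset (Finset.subset_univ _), Finset.card_singleton,
          Finset.card_univ, Nat.card_eq_fintype_card]
        exact Nat.sub_add_cancel Fintype.card_pos
      have h3 : ((((Finset.univ.filter fun t : K => ¬ t = 0).card + 1 : ℕ)) : ZMod ℓ) = 1 := by
        rw [h2, hK]
      have h4 : (((Finset.univ.filter fun t : K => ¬ t = 0).card : ℕ) : ZMod ℓ) = 0 := by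
        rw [Nat.cast_add, Nat.cast_one] at h3
        exact add_eq_right.1 h3
      rw [ZMod.natCast_eq_zero_iff] at h4
      exact (CharP.cast_eq_zero_iff κ ℓ _).2 h4
    obtain ⟨u, hu⟩ : ∃ u : K₀ˣ, ψ u ≠ 1 := by
      by_contra h
      push Not at h
      exact hψ (MonoidHom.ext h)
    obtain ⟨v, hv⟩ := FiniteField.unitsMap_norm_surjective K₀ K u
    have hv' : Algebra.norm K₀ (v : K) = u := congrArg Units.val hv
    have h1 : ∀ t : K, ev ψ (Algebra.norm K₀ ((v : K) * t)) =
        ((ψ u : Lˣ) : L) * ev ψ (Algebra.norm K₀ t) := by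
      intro t
      rw [map_mul, hv']
      by_cases h : Algebra.norm K₀ t = 0
      · rw [h, mul_zero, ev_zero, mul_zero]
      · rw [ev_of_ne ψ h, ev_of_ne ψ (mul_ne_zero u.ne_zero h), ← Units.val_mul, ← map_mul]
        congr 2
        exact Units.ext rfl
    have h2 : ∑ t : K, ev ψ (Algebra.norm K₀ t) =
        ((ψ u : Lˣ) : L) * ∑ t : K, ev ψ (Algebra.norm K₀ t) := by
      rw [Finset.mul_sum]
      conv_lhs => rw [← Equiv.sum_comp (Equiv.mulLeft₀ (v : K) v.ne_zero)]
      exact Finset.sum_congr rfl fun t _ => h1 t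
    have h3 : (1 - ((ψ u : Lˣ) : L)) * ∑ t : K, ev ψ (Algebra.norm K₀ t) = 0 := by
      rw [sub_mul, one_mul, ← h2, sub_self]
    rw [(mul_eq_zero.1 h3).resolve_left, hres0]
    intro h4
    apply hu
    apply Units.ext
    rw [Units.val_one]
    exact (sub_eq_zero.1 h4).symm

omit [Finite K₀] in
/-- the values outside the group -/
theorem eq_zero (hw : G.IsChar ℓ w) {K : Type} [Field K] [Algebra K₀ K] [FiniteDimensional K₀ K]
    {t : K} (ht : t ∉ G.pts K) : w K t = 0 := by
  cases G with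
  | add => exact absurd (Set.mem_univ t) ht
  | mul =>
    obtain ⟨ψ, -, hev⟩ := hw
    have h0 : t = 0 := by
      by_contra h
      exact ht h
    rw [hev, h0, Algebra.norm_zero, ev_zero]

open Polynomial IntermediateField in
omit [Finite K₀] in
/-- the values at the points of a closed point -/
theorem value_pow (hw : G.IsChar ℓ w) (K : Type) [Field K] [Algebra K₀ K]
    [FiniteDimensional K₀ K] {ϖ : K₀[X]} (hi : Irreducible ϖ) (hm : ϖ.Monic)
    (h0 : G.val ϖ ∈ G.pts K₀) {t : K} (ht : aeval t ϖ = 0) :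
    w K t = w K₀ (G.val ϖ) ^ (finrank K₀ K / ϖ.natDegree) := by
  have hmin : minpoly K₀ t = ϖ := (minpoly.eq_of_irreducible_of_monic hi ht hm).symm
  have hint : IsIntegral K₀ t := IsIntegral.of_finite K₀ t
  have hfin : finrank K₀⟮t⟯ K = finrank K₀ K / ϖ.natDegree := by
    have h1 := finrank_mul_finrank K₀ K₀⟮t⟯ K
    rw [adjoin.finrank hint, hmin] at h1
    rw [← h1, Nat.mul_div_cancel_left _ hi.natDegree_pos]
  rw [← hfin]
  cases G with
  | add =>
    obtain ⟨χ, -, hev⟩ := hw
    rw [hev, hev, Algebra.trace_self_apply, trace_eq_finrank_mul_minpoly_nextCoeff, hmin,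
      ← nsmul_eq_mul, AddChar.map_nsmul_eq_pow]
    rfl
  | mul =>
    obtain ⟨ψ, -, hev⟩ := hw
    have h1 : Algebra.norm K₀ t = Gp.mul.val ϖ ^ finrank K₀⟮t⟯ K := by
      rw [Algebra.norm_eq_norm_adjoin]
      congr 1
      have h2 := Algebra.PowerBasis.norm_gen_eq_coeff_zero_minpoly (adjoin.powerBasis hint)
      rw [adjoin.powerBasis_gen, minpoly_gen, hmin, adjoin.powerBasis_dim, hmin] at h2
      exact h2
    have hs0 : Gp.mul.val ϖ ≠ 0 := h0
    rw [hev, hev, h1, norm_self', ev_of_ne ψ hs0,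
      ev_of_ne ψ (pow_ne_zero _ hs0), ← Units.val_pow_eq_pow_val, ← map_pow]
    congr 2
    exact Units.ext rfl

omit [Finite K₀] in
/-- the values at the points over `K₀` are roots of unity of order prime to `ℓ` -/
theorem value_root {p : ℕ} [Fact p.Prime] [CharP K₀ p] (hℓ : ¬ ℓ ∣ p) (hw : G.IsChar ℓ w)
    {s : K₀} (hs : s ∈ G.pts K₀) : ∃ N : ℕ, ¬ ℓ ∣ N ∧ w K₀ s ^ N = 1 := by
  cases G with
  | add =>
    obtain ⟨χ, -, hev⟩ := hw
    refine ⟨p, hℓ, ?_⟩
    rw [hev, ← AddChar.map_nsmul_eq_pow, nsmul_eq_mul, CharP.cast_eq_zero, zero_mul,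
      AddChar.map_zero_eq_one]
  | mul =>
    obtain ⟨ψ, ⟨N, hN, hψ⟩, hev⟩ := hw
    have hs0 : s ≠ 0 := hs
    refine ⟨N, hN, ?_⟩
    rw [hev, norm_self', ev_of_ne ψ hs0, ← Units.val_pow_eq_pow_val,
      ← MonoidHom.pow_apply, hψ, MonoidHom.one_apply, Units.val_one]

/-- integrality -/
theorem value_integral {p : ℕ} [Fact p.Prime] [CharP K₀ p] (hw : G.IsChar ℓ w) (K : Type)
    [Field K] [Algebra K₀ K] (t : K) : IsIntegral ℤ (w K t) := by
  cases G with
  | add =>
    obtain ⟨χ, -, hev⟩ := hw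
    rw [hev]
    apply IsIntegral.of_pow (n := p) (Fact.out : p.Prime).pos
    rw [← AddChar.map_nsmul_eq_pow, nsmul_eq_mul, CharP.cast_eq_zero, zero_mul,
      AddChar.map_zero_eq_one]
    exact isIntegral_one
  | mul =>
    obtain ⟨ψ, -, hev⟩ := hw
    rw [hev]
    exact int_ev _ _

end

/-- roots of unity of order prime to the residue characteristic -/
theorem res_inj {L κ : Type*} [Field L] [Field κ] {ℓ : ℕ} [Fact ℓ.Prime] [CharP κ ℓ]
    (M : integralClosure ℤ L →+* κ) {x y : L} {m n : ℕ} (hm : ¬ ℓ ∣ m) (hn : ¬ ℓ ∣ n)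
    (hx : x ^ m = 1) (hy : y ^ n = 1) (h : res M x = res M y) : x = y := by
  have hℓ : ℓ.Prime := Fact.out
  have hm0 : 0 < m := Nat.pos_of_ne_zero (by rintro rfl; exact hm (dvd_zero _))
  have hn0 : 0 < n := Nat.pos_of_ne_zero (by rintro rfl; exact hn (dvd_zero _))
  have hx0 : x ≠ 0 := by
    rintro rfl
    rw [zero_pow hm0.ne'] at hx
    exact zero_ne_one hx
  have hy0 : y ≠ 0 := by
    rintro rfl
    rw [zero_pow hn0.ne'] at hy
    exact zero_ne_one hy
  have hxi : IsIntegral ℤ x := by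
    apply IsIntegral.of_pow (n := m) hm0
    rw [hx]
    exact isIntegral_one
  have hyi : IsIntegral ℤ y⁻¹ := by
    apply IsIntegral.of_pow (n := n) hn0
    rw [inv_pow, hy, inv_one]
    exact isIntegral_one
  have hyi' : IsIntegral ℤ y := by
    apply IsIntegral.of_pow (n := n) hn0
    rw [hy]
    exact isIntegral_one
  have hres1 : res M (1 : L) = 1 := by simpa using res_natCast M 1
  set z := x * y⁻¹ with hz
  have hzi : IsIntegral ℤ z := hxi.mul hyi
  have hz1 : z ^ (m * n) = 1 := by
    rw [hz, mul_pow, pow_mul, hx, one_pow, one_mul, inv_pow, mul_comm m, pow_mul, hy, one_pow,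
      inv_one]
  have hzr : res M z = 1 := by
    rw [hz, res_mul M hxi hyi, h, ← res_mul M hyi' hyi, mul_inv_cancel₀ hy0, hres1]
  by_contra hne
  have hzne : z ≠ 1 := by
    intro h1
    apply hne
    rw [hz, ← div_eq_mul_inv, div_eq_one_iff_eq hy0] at h1
    exact h1
  have hsum : ∑ i ∈ Finset.range (m * n), z ^ i = 0 := by
    have h1 := geom_sum_mul z (m * n)
    rw [hz1, sub_self] at h1
    exact (mul_eq_zero.1 h1).resolve_right (sub_ne_zero.2 hzne)
  have h2 := congrArg (res M) hsum
  rw [res_sum M _ _ (fun i _ => hzi.pow i), Finset.sum_congr rfl fun i _ => res_pow M hzi i] at h2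
  simp only [hzr, one_pow, Finset.sum_const, Finset.card_range, nsmul_eq_mul, mul_one] at h2
  have h3 : res M (0 : L) = 0 := by simpa using res_natCast M 0
  rw [h3, CharP.cast_eq_zero_iff κ ℓ, hℓ.dvd_mul] at h2
  rcases h2 with h2 | h2
  · exact hm h2
  · exact hn h2

end Pool.Agent.Helper41.ST
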