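import Pool.Agent.Helper41.ST.Char

/-!
# Closed points of the group over an extension of the ground field
-/

open Module Polynomial UniqueFactorizationMonoid

namespace Pool.Agent.Helper41.ST

open Pool.Agent.Helper41.TS Pool.Agent.Helper73.KT Pool.Agent.Helper73.HD Pool.Agent.Helper40.PC

section factors

variable {k : Type} [Field k]

open Classical in
/-- the irreducible factors over `K₀` of the members of `S` -/
noncomputable def factorsOver (S : Finset k[X]) (K₀ : Type) [Field K₀] [Algebra k K₀] : Finset K₀[X] :=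
  (normalizedFactors ((∏ π ∈ S, π).map (algebraMap k K₀))).toFinset

variable {S : Finset k[X]} {K₀ : Type} [Field K₀] [Algebra k K₀]

theorem prod_ne_zero (hS : ∀ π ∈ S, π.Monic) :
    (∏ π ∈ S, π).map (algebraMap k K₀) ≠ 0 :=
  ((monic_prod_of_monic S _ hS).map _).ne_zero

theorem mem_over (hS : ∀ π ∈ S, π.Monic) {ϖ : K₀[X]} :
    ϖ ∈ factorsOver S K₀ ↔ Irreducible ϖ ∧ ϖ.Monic ∧ ∃ π ∈ S, ϖ ∣ π.map (algebraMap k K₀) := by
  classical
  rw [factorsOver, Multiset.mem_toFinset]
  constructor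
  · intro h
    have hi := irreducible_of_normalized_factor ϖ h
    refine ⟨hi, ?_, ?_⟩
    · have h1 := normalize_normalized_factor ϖ h
      rw [← h1]
      exact monic_normalize hi.ne_zero
    · have h1 := dvd_of_mem_normalizedFactors h
      rw [Polynomial.map_prod] at h1
      exact (hi.prime.dvd_finset_prod_iff _).1 h1
  · rintro ⟨hi, hm, π, hπ, hd⟩
    rw [mem_normalizedFactors_iff' (prod_ne_zero hS)]
    refine ⟨hi, hm.normalize_eq_self, ?_⟩
    rw [Polynomial.map_prod]
    exact hd.trans (Finset.dvd_prod_of_mem _ hπ)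

/-- distinct monic irreducible polynomials are coprime -/
theorem coprime_of_ne {F : Type} [Field F] {f g : F[X]} (hf : Irreducible f) (hfm : f.Monic)
    (hg : Irreducible g) (hgm : g.Monic) (h : f ≠ g) : IsCoprime f g := by
  rw [hf.coprime_iff_not_dvd]
  intro hd
  exact h (eq_of_monic_of_associated hfm hgm (hf.associated_of_dvd hg hd))

/-- the sum of the degrees -/
theorem sum_degree [Finite k] (hS : ∀ π ∈ S, Irreducible π ∧ π.Monic) :
    ∑ ϖ ∈ factorsOver S K₀, ϖ.natDegree = ∑ π ∈ S, π.natDegree := by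
  classical
  have hne := prod_ne_zero (K₀ := K₀) fun π hπ => (hS π hπ).2
  have hsep : (∏ π ∈ S, π).Separable := by
    apply Polynomial.separable_prod'
    · intro f hf g hg hfg
      exact coprime_of_ne (hS f hf).1 (hS f hf).2 (hS g hg).1 (hS g hg).2 hfg
    · intro f hf
      exact PerfectField.separable_of_irreducible (hS f hf).1
  have hmon : ((∏ π ∈ S, π).map (algebraMap k K₀)).Monic :=
    (monic_prod_of_monic S _ fun π hπ => (hS π hπ).2).map _
  have hnd : (normalizedFactors ((∏ π ∈ S, π).map (algebraMap k K₀))).Nodup :=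
    (squarefree_iff_nodup_normalizedFactors hne).1 (hsep.map.squarefree)
  have h1 : ∑ ϖ ∈ factorsOver S K₀, ϖ.natDegree =
      ((normalizedFactors ((∏ π ∈ S, π).map (algebraMap k K₀))).map natDegree).sum := by
    rw [factorsOver, Finset.sum, Multiset.toFinset_val, hnd.dedup]
  have h2 : ((normalizedFactors ((∏ π ∈ S, π).map (algebraMap k K₀))).map natDegree).sum =
      ((∏ π ∈ S, π).map (algebraMap k K₀)).natDegree := by
    rw [← natDegree_multiset_prod, prod_normalizedFactors_eq hne, hmon.normalize_eq_self]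
    exact zero_notMem_normalizedFactors _
  rw [h1, h2, natDegree_map, natDegree_prod_of_monic _ _ fun π hπ => (hS π hπ).2]

omit [Field K₀] [Algebra k K₀] in
theorem coeff_zero_iff {F : Type} [Field F] {f : F[X]} (hf : Irreducible f) (hfm : f.Monic) :
    f.coeff 0 = 0 ↔ f = X := by
  constructor
  · intro h
    exact (eq_of_monic_of_associated monic_X hfm
      (irreducible_X.associated_of_dvd hf (X_dvd_iff.2 h))).symm
  · rintro rfl
    exact coeff_X_zero

/-- the factors are closed points of the group -/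
theorem val_mem {G : Gp} (hS : ∀ π ∈ S, Irreducible π ∧ π.Monic)
    (hG : ∀ π ∈ S, G.val π ∈ G.pts k) {ϖ : K₀[X]} (hϖ : ϖ ∈ factorsOver S K₀) :
    G.val ϖ ∈ G.pts K₀ := by
  cases G with
  | add => exact Set.mem_univ _
  | mul =>
    obtain ⟨hi, hm, π, hπ, hd⟩ := (mem_over fun π hπ => (hS π hπ).2).1 hϖ
    have h1 : Gp.mul.val π ≠ 0 := hG π hπ
    change (-1) ^ ϖ.natDegree * ϖ.coeff 0 ≠ 0
    refine mul_ne_zero (pow_ne_zero _ (neg_ne_zero.2 one_ne_zero)) ?_
    intro h2
    rw [coeff_zero_iff hi hm] at h2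
    rw [h2, X_dvd_iff, coeff_map, map_eq_zero] at hd
    apply h1
    change (-1) ^ π.natDegree * π.coeff 0 = 0
    rw [hd, mul_zero]

open Classical in
/-- the weight of a factor -/
noncomputable def wgt {R : Type} [AddCommMonoid R] (S : Finset k[X]) (d : k[X] → R) {K₀ : Type}
    [Field K₀] [Algebra k K₀] (ϖ : K₀[X]) : R :=
  ∑ π ∈ S, if ϖ ∣ π.map (algebraMap k K₀) then d π else 0

theorem wgt_eq {R : Type} [AddCommMonoid R] (hS : ∀ π ∈ S, Irreducible π ∧ π.Monic)
    (d : k[X] → R) {ϖ : K₀[X]} (hϖ : ϖ ∈ factorsOver S K₀) : ∃ π ∈ S, wgt S d ϖ = d π := by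
  classical
  obtain ⟨hi, hm, π, hπ, hd⟩ := (mem_over fun π hπ => (hS π hπ).2).1 hϖ
  refine ⟨π, hπ, ?_⟩
  rw [wgt, Finset.sum_eq_single π, if_pos hd]
  · intro π' hπ' hne
    rw [if_neg]
    intro hd'
    have hcop := (coprime_of_ne (hS π' hπ').1 (hS π' hπ').2 (hS π hπ).1 (hS π hπ).2 hne).map
      (mapRingHom (algebraMap k K₀))
    exact hi.not_isUnit (hcop.isUnit_of_dvd' hd' hd)
  · intro h
    exact absurd hπ h

open Classical in
/-- the weights at a point -/
theorem sum_wgt {R : Type} [AddCommMonoid R] (hS : ∀ π ∈ S, Irreducible π ∧ π.Monic)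
    (d : k[X] → R) {K : Type} [Field K] [Algebra k K] [Algebra K₀ K] [IsScalarTower k K₀ K]
    [FiniteDimensional K₀ K] (t : K) : (∑ π ∈ S, if aeval t π = 0 then d π else 0) =
      ∑ ϖ ∈ factorsOver S K₀, if aeval t ϖ = 0 then wgt S d ϖ else 0 := by
  have hint : IsIntegral K₀ t := IsIntegral.of_finite K₀ t
  have hmin : ∀ ϖ ∈ factorsOver S K₀, aeval t ϖ = 0 → ϖ = minpoly K₀ t := by
    intro ϖ hϖ ht
    obtain ⟨hi, hm, -⟩ := (mem_over fun π hπ => (hS π hπ).2).1 hϖ
    exact minpoly.eq_of_irreducible_of_monic hi ht hm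
  have hmap : ∀ π : k[X], aeval t π = 0 ↔ minpoly K₀ t ∣ π.map (algebraMap k K₀) := by
    intro π
    rw [minpoly.dvd_iff, aeval_map_algebraMap]
  by_cases h : minpoly K₀ t ∈ factorsOver S K₀
  · rw [Finset.sum_eq_single (minpoly K₀ t), if_pos (minpoly.aeval K₀ t), wgt]
    · exact Finset.sum_congr rfl fun π _ => by simp only [hmap π]
    · intro ϖ hϖ hne
      rw [if_neg fun ht => hne (hmin ϖ hϖ ht)]
    · intro h'
      exact absurd h h'
  · rw [Finset.sum_eq_zero, Finset.sum_eq_zero]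
    · intro ϖ hϖ
      rw [if_neg]
      intro ht
      exact h (by rwa [hmin ϖ hϖ ht] at hϖ)
    · intro π hπ
      rw [if_neg]
      intro ht
      exact h ((mem_over fun π hπ => (hS π hπ).2).2 ⟨minpoly.irreducible hint,
        minpoly.monic hint, π, hπ, (hmap π).1 ht⟩)

/-- a closed point of degree prime to the degree of the extension does not split -/
theorem irreducible_map [FiniteDimensional k K₀] {π : k[X]} (hi : Irreducible π) (hm : π.Monic)
    (hc : π.natDegree.Coprime (finrank k K₀)) : Irreducible (π.map (algebraMap k K₀)) := by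
  have hm' : (π.map (algebraMap k K₀)).Monic := hm.map _
  have hnd : (π.map (algebraMap k K₀)).natDegree = π.natDegree := natDegree_map _
  have hnu : ¬ IsUnit (π.map (algebraMap k K₀)) := by
    intro h
    have h1 := natDegree_eq_zero_of_isUnit h
    rw [hnd] at h1
    exact hi.natDegree_pos.ne' h1
  obtain ⟨ϖ, hϖ, hd⟩ := WfDvdMonoid.exists_irreducible_factor hnu hm'.ne_zero
  have : Fact (Irreducible ϖ) := ⟨hϖ⟩
  have hfin : finrank K₀ (AdjoinRoot ϖ) = ϖ.natDegree := finrank_quotient_span_eq_natDegree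
  have : FiniteDimensional K₀ (AdjoinRoot ϖ) :=
    Module.finite_of_finrank_pos (by rw [hfin]; exact hϖ.natDegree_pos)
  have : FiniteDimensional k (AdjoinRoot ϖ) := FiniteDimensional.trans k K₀ _
  have hroot : aeval (AdjoinRoot.root ϖ) π = 0 := by
    rw [← aeval_map_algebraMap K₀]
    obtain ⟨g, hg⟩ := hd
    rw [hg, map_mul, AdjoinRoot.aeval_eq, AdjoinRoot.mk_self, zero_mul]
  have hmin : minpoly k (AdjoinRoot.root ϖ) = π :=
    (minpoly.eq_of_irreducible_of_monic hi hroot hm).symm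
  have h1 : π.natDegree ∣ finrank k (AdjoinRoot ϖ) := by
    rw [← hmin]
    exact minpoly.degree_dvd (IsIntegral.of_finite k _)
  rw [← finrank_mul_finrank k K₀, hfin] at h1
  have h2 : π.natDegree ∣ ϖ.natDegree := hc.dvd_of_dvd_mul_left h1
  have h3 : π.natDegree ≤ ϖ.natDegree := Nat.le_of_dvd hϖ.natDegree_pos h2
  have h4 : Associated ϖ (π.map (algebraMap k K₀)) :=
    associated_of_dvd_of_natDegree_le hd hm'.ne_zero (by rw [hnd]; exact h3)
  exact h4.irreducible hϖ

/-- the factors in the case of degrees prime to the degree of the extension -/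
theorem exists_of_factor [FiniteDimensional k K₀] (hS : ∀ π ∈ S, Irreducible π ∧ π.Monic)
    (hc : ∀ π ∈ S, π.natDegree.Coprime (finrank k K₀)) {ϖ : K₀[X]}
    (hϖ : ϖ ∈ factorsOver S K₀) : ∃ π ∈ S, ϖ = π.map (algebraMap k K₀) := by
  obtain ⟨hi, hm, π, hπ, hd⟩ := (mem_over fun π hπ => (hS π hπ).2).1 hϖ
  refine ⟨π, hπ, ?_⟩
  have h1 := irreducible_map (K₀ := K₀) (hS π hπ).1 (hS π hπ).2 (hc π hπ)
  exact eq_of_monic_of_associated hm ((hS π hπ).2.map _) (hi.associated_of_dvd h1 hd)

theorem val_map (G : Gp) (π : k[X]) :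
    G.val (π.map (algebraMap k K₀)) = algebraMap k K₀ (G.val π) := by
  cases G with
  | add =>
    change -(π.map (algebraMap k K₀)).nextCoeff = algebraMap k K₀ (-π.nextCoeff)
    rw [map_neg, nextCoeff_map_eq]
  | mul =>
    change (-1) ^ (π.map (algebraMap k K₀)).natDegree * (π.map (algebraMap k K₀)).coeff 0 =
      algebraMap k K₀ ((-1) ^ π.natDegree * π.coeff 0)
    rw [natDegree_map, coeff_map, map_mul, map_pow, map_neg, map_one]

end factors

section sum

variable {L κ K₀ : Type} [Field L] [Field K₀] [Finite K₀] {G : Gp} {ℓ : ℕ}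
    {w : ∀ (K : Type) [Field K] [Algebra K₀ K], K → L} [Field κ] [CharP κ ℓ] [IsAlgClosed κ]

open Classical in
/-- the sum over the points of a closed point -/
theorem closed_sum {p : ℕ} [Fact p.Prime] [CharP K₀ p] (M : integralClosure ℤ L →+* κ)
    (hw : G.IsChar ℓ w) {ϖ : K₀[X]} (hi : Irreducible ϖ) (hm : ϖ.Monic)
    (h0 : G.val ϖ ∈ G.pts K₀) (hdeg : (ϖ.natDegree : κ) ≠ 0)
    (hne : res M (w K₀ (G.val ϖ)) ≠ 0) (K : Type) [Field K] [Fintype K] [Algebra K₀ K] :
    (∑ t : K, if aeval t ϖ = 0 then res M (w K t) else 0) =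
      ∑ z ∈ rts ϖ.natDegree (res M (w K₀ (G.val ϖ))), z ^ finrank K₀ K := by
  have hval : ∀ t : K, aeval t ϖ = 0 →
      res M (w K t) = res M (w K₀ (G.val ϖ)) ^ (finrank K₀ K / ϖ.natDegree) := by
    intro t ht
    rw [value_pow hw K hi hm h0 ht, res_pow M (value_integral (p := p) hw K₀ _)]
  rw [sum_rts hdeg hne, ← Finset.sum_filter, Finset.sum_congr rfl fun t ht =>
    hval t (Finset.mem_filter.1 ht).2, Finset.sum_const, card_roots_irreducible hi]
  split_ifs
  · rw [nsmul_eq_mul]
  · rw [zero_smul]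

end sum

end Pool.Agent.Helper41.ST
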