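import Pool.Agent.Helper41.ST.Char

/-!
# Level structures modulo `ℓ`
-/

open Module Polynomial

namespace Pool.Agent.Helper41.ST

/-- the points over `K` of the affine variety over `k` with the equations `I`; the first
coordinate is a function `t` on it -/
def points {k : Type} [Field k] {n : ℕ} (I : Set (MvPolynomial (Fin (n + 1)) k)) (K : Type)
    [Field K] [Algebra k K] : Set (Fin (n + 1) → K) := {P | ∀ f ∈ I, MvPolynomial.aeval P f = 0}

open Classical in
/-- the number of the points over `t` is constant modulo `ℓ` outside the closed points of `S` -/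
def Level {k : Type} [Field k] {n : ℕ} (G : Gp) (ℓ : ℕ) (I : Set (MvPolynomial (Fin (n + 1)) k))
    (S : Finset k[X]) : Prop :=
  (∀ π ∈ S, (Irreducible π ∧ π.Monic) ∧ G.val π ∈ G.pts k) ∧
    ∃ δ : k[X] → ZMod ℓ, (∀ π ∈ S, δ π ≠ 0) ∧
      ∀ (K : Type) [Field K] [Finite K] [Algebra k K], (Nat.card K : ZMod ℓ) = 1 →
        ∃ c : ZMod ℓ, ∀ t ∈ G.pts K, (Nat.card {P : points I K // P.1 0 = t} : ZMod ℓ) =
          c + ∑ π ∈ S, if aeval t π = 0 then δ π else 0

end Pool.Agent.Helper41.ST
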