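import Mathlib

/-!
# Points of order three, five and seven on cubic curves over finite fields
-/

open Module WeierstrassCurve

namespace Pool.Agent.Helper41.ST

section count

variable {K : Type} [Field K]

/-- the singular points of the curve -/
def Sing (W : Affine K) (x y : K) : Prop := W.Equation x y ∧ ¬ W.Nonsingular x y

theorem sing_iff (W : Affine K) (x y : K) : Sing W x y ↔ W.Equation x y ∧
    W.a₁ * y - (3 * x ^ 2 + 2 * W.a₂ * x + W.a₄) = 0 ∧ 2 * y + W.a₁ * x + W.a₃ = 0 := by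
  rw [Sing, Affine.nonsingular_iff']
  tauto

/-- there is at most one singular point -/
theorem sing_unique (W : Affine K) {x y x' y' : K} (h : Sing W x y) (h' : Sing W x' y') :
    x = x' ∧ y = y' := by
  rw [sing_iff, Affine.equation_iff'] at h h'
  obtain ⟨h1, h2, h3⟩ := h
  obtain ⟨h1', h2', h3'⟩ := h'
  have hx : (x' - x) ^ 3 = 0 := by
    linear_combination 2 * h1' - (x' - x) * h2' - (y' - y) * h3' - 2 * h1 - (x' - x) * h2 -
      (y' - y) * h3
  have hx0 : x' - x = 0 := pow_eq_zero_iff three_ne_zero |>.1 hx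
  have hxx : x' = x := sub_eq_zero.1 hx0
  subst hxx
  have hy : (y' - y) ^ 2 = 0 := by
    linear_combination h1' - h1 - (y' - y) * h3
  exact ⟨rfl, (sub_eq_zero.1 (pow_eq_zero_iff two_ne_zero |>.1 hy)).symm⟩

variable [Finite K]

/-- the number of the singular points -/
theorem card_sing (W : Affine K) : Nat.card {z : K × K // Sing W z.1 z.2} ≤ 1 := by
  rw [Finite.card_le_one_iff_subsingleton]
  constructor
  intro z z'
  have h := sing_unique W z.2 z'.2
  exact Subtype.ext (Prod.ext h.1 h.2)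

instance (W : Affine K) : Finite W.Point := by
  have : Finite (WithZero {z : K × K // W.Nonsingular z.1 z.2}) :=
    inferInstanceAs (Finite (Option _))
  exact Finite.of_equiv _ W.nonsingularPointEquiv.symm

/-- the number of the affine points -/
theorem card_affine (W : Affine K) : Nat.card {z : K × K // W.Equation z.1 z.2} + 1 =
    Nat.card W.Point + Nat.card {z : K × K // Sing W z.1 z.2} := by
  classical
  have h1 : Nat.card W.Point = Nat.card {z : K × K // W.Nonsingular z.1 z.2} + 1 := by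
    rw [Nat.card_congr W.nonsingularPointEquiv]
    exact Finite.card_option
  have h2 : Nat.card {z : K × K // W.Equation z.1 z.2} =
      Nat.card {z : K × K // W.Nonsingular z.1 z.2} + Nat.card {z : K × K // Sing W z.1 z.2} := by
    have := Fintype.ofFinite K
    rw [Nat.card_eq_fintype_card, Nat.card_eq_fintype_card, Nat.card_eq_fintype_card,
      Fintype.card_subtype, Fintype.card_subtype, Fintype.card_subtype,
      ← Finset.card_union_of_disjoint]
    · congr 1
      ext z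
      simp only [Finset.mem_filter, Finset.mem_univ, true_and, Finset.mem_union, Sing]
      constructor
      · intro h
        by_cases hz : W.Nonsingular z.1 z.2
        · exact Or.inl hz
        · exact Or.inr ⟨h, hz⟩
      · rintro (h | h)
        · exact h.left
        · exact h.left
    · rw [Finset.disjoint_left]
      intro z hz hz'
      rw [Finset.mem_filter] at hz hz'
      exact hz'.2.2 hz.2
  rw [h1, h2]
  ring

open Classical in
/-- the number of the affine points modulo `ℓ` if there is a nonsingular point of order `ℓ` -/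
theorem card_of_order (W : Affine K) {ℓ : ℕ} [hℓ : Fact ℓ.Prime] {x y : K}
    (h : W.Nonsingular x y) (hP : ℓ • (Affine.Point.some x y h) = 0)
    (hs : W.Δ = 0 → ∃ x y, Sing W x y) :
    (Nat.card {z : K × K // W.Equation z.1 z.2} : ZMod ℓ) = if W.Δ = 0 then 0 else -1 := by
  have h1 : addOrderOf (Affine.Point.some x y h) = ℓ :=
    addOrderOf_eq_prime hP (Affine.Point.some_ne_zero h)
  have h2 : (Nat.card W.Point : ZMod ℓ) = 0 := by
    rw [ZMod.natCast_eq_zero_iff, ← h1]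
    exact addOrderOf_dvd_natCard _
  have h3 := congrArg (Nat.cast : ℕ → ZMod ℓ) (card_affine W)
  rw [Nat.cast_add, Nat.cast_add, h2, Nat.cast_one, zero_add] at h3
  split_ifs with hΔ
  · obtain ⟨x0, y0, h0⟩ := hs hΔ
    have h4 : Nat.card {z : K × K // Sing W z.1 z.2} = 1 := by
      refine le_antisymm (card_sing W) ?_
      have : Nonempty {z : K × K // Sing W z.1 z.2} := ⟨⟨(x0, y0), h0⟩⟩
      exact Nat.card_pos
    rw [h4, Nat.cast_one] at h3
    exact add_eq_right.1 h3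
  · have h4 : Nat.card {z : K × K // Sing W z.1 z.2} = 0 := by
      have : IsEmpty {z : K × K // Sing W z.1 z.2} := by
        constructor
        intro z
        exact z.2.2 ((W.equation_iff_nonsingular_of_Δ_ne_zero hΔ).1 z.2.1)
      exact Nat.card_of_isEmpty
    rw [h4, Nat.cast_zero] at h3
    exact eq_neg_of_add_eq_zero_left h3

/-- the points of a cubic curve with a singular point at the origin -/
theorem card_param (A : K) : Nat.card {z : K × K // z.2 ^ 2 + A * z.1 * z.2 - z.1 ^ 3 = 0} =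
    Nat.card {l : K // l ≠ -A ∨ A = 0} := by
  have hzero : ∀ z : {z : K × K // z.2 ^ 2 + A * z.1 * z.2 - z.1 ^ 3 = 0},
      z.1.1 = 0 → z.1.2 = 0 := by
    intro z h
    have h2 := z.2
    rw [h] at h2
    exact pow_eq_zero_iff two_ne_zero |>.1 (by linear_combination h2)
  refine Nat.card_congr ⟨fun z => ⟨z.1.2 / z.1.1, ?_⟩,
    fun l => ⟨(l.1 * (l.1 + A), l.1 ^ 2 * (l.1 + A)), ?_⟩, ?_, ?_⟩
  · by_cases hA : A = 0
    · exact Or.inr hA
    · left
      by_cases hx : z.1.1 = 0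
      · rw [hx, div_zero]
        exact (neg_ne_zero.2 hA).symm
      · intro h
        rw [div_eq_iff hx] at h
        have h2 := z.2
        rw [h] at h2
        exact hx (pow_eq_zero_iff three_ne_zero |>.1 (by linear_combination -h2))
  · change (l.1 ^ 2 * (l.1 + A)) ^ 2 + A * (l.1 * (l.1 + A)) * (l.1 ^ 2 * (l.1 + A)) -
      (l.1 * (l.1 + A)) ^ 3 = 0
    ring
  · intro z
    apply Subtype.ext
    change (z.1.2 / z.1.1 * (z.1.2 / z.1.1 + A), (z.1.2 / z.1.1) ^ 2 * (z.1.2 / z.1.1 + A)) =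
      z.1
    by_cases hx : z.1.1 = 0
    · apply Prod.ext
      · simp only [hx, hzero z hx, div_zero, zero_mul]
      · simp only [hx, hzero z hx, div_zero]
        ring
    · have h2 := z.2
      have h4 : z.1.2 ^ 2 + A * z.1.1 * z.1.2 = z.1.1 ^ 3 := by linear_combination h2
      apply Prod.ext
      · change z.1.2 / z.1.1 * (z.1.2 / z.1.1 + A) = z.1.1
        field_simp
        linear_combination h4
      · change (z.1.2 / z.1.1) ^ 2 * (z.1.2 / z.1.1 + A) = z.1.2
        field_simp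
        linear_combination z.1.2 * h4
  · intro l
    apply Subtype.ext
    change l.1 ^ 2 * (l.1 + A) / (l.1 * (l.1 + A)) = l.1
    by_cases hl : l.1 = 0
    · rw [hl]
      simp
    · have h2 : l.1 + A ≠ 0 := by
        rcases l.2 with h | h
        · exact fun h' => h (eq_neg_of_add_eq_zero_left h')
        · exact fun h' => hl (by linear_combination h' - h)
      field_simp

open Classical in
theorem card_param' {ℓ : ℕ} (hK : (Nat.card K : ZMod ℓ) = 1) (A : K) :
    (Nat.card {z : K × K // z.2 ^ 2 + A * z.1 * z.2 - z.1 ^ 3 = 0} : ZMod ℓ) =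
      if A = 0 then 1 else 0 := by
  have := Fintype.ofFinite K
  rw [card_param]
  split_ifs with hA
  · rw [← hK]
    congr 1
    exact Nat.card_congr (Equiv.subtypeUnivEquiv fun _ => Or.inr hA)
  · have h2 : Nat.card {l : K // l ≠ -A ∨ A = 0} + 1 = Nat.card K := by
      have h3 : Nat.card {l : K // l ≠ -A ∨ A = 0} = Nat.card {l : K // l ≠ -A} :=
        Nat.card_congr (Equiv.subtypeEquivRight fun l => by tauto)
      rw [h3, Nat.card_eq_fintype_card, Nat.card_eq_fintype_card, Fintype.card_subtype_compl,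
        Fintype.card_subtype_eq]
      exact Nat.sub_add_cancel Fintype.card_pos
    have h4 : ((Nat.card {l : K // l ≠ -A ∨ A = 0} + 1 : ℕ) : ZMod ℓ) = 1 := by rw [h2, hK]
    rw [Nat.cast_add, Nat.cast_one] at h4
    exact add_eq_right.1 h4

end count

section law

variable {K : Type} [Field K] [DecidableEq K] (W : Affine K)

/-- the sum of two points -/
theorem add_chord {x₁ y₁ x₂ y₂ x₃ y₃ l : K} (h₁ : W.Nonsingular x₁ y₁) (h₂ : W.Nonsingular x₂ y₂)
    (hx : x₁ ≠ x₂) (hl : l * (x₁ - x₂) = y₁ - y₂) (h3 : x₃ = l ^ 2 + W.a₁ * l - W.a₂ - x₁ - x₂)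
    (h4 : y₃ = -(l * (x₃ - x₁) + y₁) - W.a₁ * x₃ - W.a₃) : ∃ h₃ : W.Nonsingular x₃ y₃,
      Affine.Point.some x₁ y₁ h₁ + Affine.Point.some x₂ y₂ h₂ = Affine.Point.some x₃ y₃ h₃ := by
  have hs : W.slope x₁ x₂ y₁ y₂ = l := by
    rw [Affine.slope_of_X_ne hx, div_eq_iff (sub_ne_zero.2 hx), hl]
  have hX : W.addX x₁ x₂ (W.slope x₁ x₂ y₁ y₂) = x₃ := by
    rw [hs, h3, Affine.addX]
  have hY : W.addY x₁ x₂ y₁ (W.slope x₁ x₂ y₁ y₂) = y₃ := by
    rw [Affine.addY, Affine.negAddY, hX, hs, h4, Affine.negY]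
  clear h3 h4
  subst hX
  subst hY
  exact ⟨Affine.nonsingular_add h₁ h₂ fun hxy => hx hxy.left, Affine.Point.add_of_X_ne hx⟩

/-- the double of a point -/
theorem add_tangent {x₁ y₁ x₃ y₃ l : K} (h₁ : W.Nonsingular x₁ y₁)
    (hy : y₁ ≠ W.negY x₁ y₁)
    (hl : l * (y₁ - W.negY x₁ y₁) = 3 * x₁ ^ 2 + 2 * W.a₂ * x₁ + W.a₄ - W.a₁ * y₁)
    (h3 : x₃ = l ^ 2 + W.a₁ * l - W.a₂ - x₁ - x₁)
    (h4 : y₃ = -(l * (x₃ - x₁) + y₁) - W.a₁ * x₃ - W.a₃) : ∃ h₃ : W.Nonsingular x₃ y₃,
      Affine.Point.some x₁ y₁ h₁ + Affine.Point.some x₁ y₁ h₁ = Affine.Point.some x₃ y₃ h₃ := by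
  have hs : W.slope x₁ x₁ y₁ y₁ = l := by
    rw [Affine.slope_of_Y_ne rfl hy, div_eq_iff (sub_ne_zero.2 hy), hl]
  have hX : W.addX x₁ x₁ (W.slope x₁ x₁ y₁ y₁) = x₃ := by
    rw [hs, h3, Affine.addX]
  have hY : W.addY x₁ x₁ y₁ (W.slope x₁ x₁ y₁ y₁) = y₃ := by
    rw [Affine.addY, Affine.negAddY, hX, hs, h4, Affine.negY]
  clear h3 h4
  subst hX
  subst hY
  exact ⟨Affine.nonsingular_add h₁ h₁ fun hxy => hy hxy.right,
    Affine.Point.add_self_of_Y_ne hy⟩

theorem neg_eq {x y y' : K} (h : W.Nonsingular x y) (h' : W.Nonsingular x y')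
    (e : y' = -y - W.a₁ * x - W.a₃) :
    Affine.Point.some x y' h' = -Affine.Point.some x y h := by
  subst e
  rfl

theorem three_aux {A : Type} [AddCommGroup A] {P Q : A} (h1 : P + P = Q) (h2 : Q = -P) :
    3 • P = 0 := by
  have h : 3 • P = (P + P) + P := by abel
  rw [h, h1, h2, neg_add_cancel]

theorem five_aux {A : Type} [AddCommGroup A] {P Q R : A} (h1 : P + P = Q) (h2 : P + Q = R)
    (h3 : R = -Q) : 5 • P = 0 := by
  have h : 5 • P = (P + (P + P)) + (P + P) := by abel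
  rw [h, h1, h2, h3, neg_add_cancel]

theorem seven_aux {A : Type} [AddCommGroup A] {P Q R T : A} (h1 : P + P = Q) (h2 : P + Q = R)
    (h3 : P + R = T) (h4 : T = -R) : 7 • P = 0 := by
  have h : 7 • P = (P + (P + (P + P))) + (P + (P + P)) := by abel
  rw [h, h1, h2, h3, h4, neg_add_cancel]

end law

section tate

/-- the curve `y ^ 2 + a x y + b y = x ^ 3 + c x ^ 2` -/
def tateCurve {R : Type} [CommRing R] (a b c : R) : Affine R := ⟨a, c, b, 0, 0⟩

/-- the origin is a point of order `ℓ = 3, 5, 7` -/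
def IsTate {R : Type} [CommRing R] (ℓ : ℕ) (a b c : R) : Prop :=
  ℓ = 3 ∧ c = 0 ∨ ℓ = 5 ∧ b ^ 2 + c ^ 3 = a * b * c ∨
    ℓ = 7 ∧ b * (b - a * c) ^ 3 = c ^ 3 * (b * (b - a * c) + c ^ 3)

theorem IsTate.map {R R' : Type} [CommRing R] [CommRing R'] (f : R →+* R') {ℓ : ℕ} {a b c : R}
    (h : IsTate ℓ a b c) : IsTate ℓ (f a) (f b) (f c) := by
  rcases h with ⟨h1, h2⟩ | ⟨h1, h2⟩ | ⟨h1, h2⟩
  · exact Or.inl ⟨h1, by rw [h2, map_zero]⟩
  · refine Or.inr (Or.inl ⟨h1, ?_⟩)
    have := congrArg f h2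
    simpa only [map_add, map_pow, map_mul] using this
  · refine Or.inr (Or.inr ⟨h1, ?_⟩)
    have := congrArg f h2
    simpa only [map_add, map_sub, map_pow, map_mul] using this

variable {K : Type} [Field K]

theorem IsTate.c_zero {ℓ : ℕ} {a b c : K} (h : IsTate ℓ a b c) (hb : b = 0) : c = 0 := by
  subst hb
  rcases h with ⟨h1, h2⟩ | ⟨h1, h2⟩ | ⟨h1, h2⟩
  · exact h2
  · exact pow_eq_zero_iff three_ne_zero |>.1 (by linear_combination h2)
  · exact pow_eq_zero_iff (n := 6) (by norm_num) |>.1 (by linear_combination -h2)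

variable [DecidableEq K]

theorem three_torsion {a b : K} (hb : b ≠ 0) {W : Affine K} (hW : W = tateCurve a b 0)
    (h : W.Nonsingular 0 0) : 3 • Affine.Point.some 0 0 h = 0 := by
  have hy : (0 : K) ≠ W.negY 0 0 := by
    simp only [Affine.negY, hW, tateCurve]
    intro h0
    exact hb (by linear_combination h0)
  obtain ⟨h3, h4⟩ := add_tangent W (x₃ := 0) (y₃ := -b) (l := 0) h hy
    (by simp [hW, tateCurve]) (by simp [hW, tateCurve]) (by simp [hW, tateCurve])
  exact three_aux h4 (neg_eq _ h h3 (by simp [hW, tateCurve]))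

theorem five_torsion {u v : K} (hu : u ≠ 0) (hv : v ≠ 0) {W : Affine K}
    (hW : W = tateCurve (u * (1 - v)) (-u ^ 3 * v) (-u ^ 2 * v)) (h : W.Nonsingular 0 0) :
    5 • Affine.Point.some 0 0 h = 0 := by
  have hb : u ^ 3 * v ≠ 0 := mul_ne_zero (pow_ne_zero _ hu) hv
  have hy : (0 : K) ≠ W.negY 0 0 := by
    simp only [Affine.negY, hW, tateCurve]
    intro h0
    exact hb (by linear_combination -h0)
  obtain ⟨h3, h4⟩ := add_tangent W (x₃ := u ^ 2 * v) (y₃ := u ^ 3 * v ^ 2) (l := 0) h hy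
    (by simp [hW, tateCurve]) (by simp [hW, tateCurve])
    (by simp only [hW, tateCurve]; ring)
  have hx : (0 : K) ≠ u ^ 2 * v := (mul_ne_zero (pow_ne_zero _ hu) hv).symm
  obtain ⟨h5, h6⟩ := add_chord W (x₃ := u ^ 2 * v) (y₃ := 0) (l := u * v) h h3 hx
    (by ring) (by simp only [hW, tateCurve]; ring) (by simp only [hW, tateCurve]; ring)
  exact five_aux h4 h6 (neg_eq _ h3 h5 (by simp only [hW, tateCurve]; ring))

theorem seven_torsion {u v : K} (hu : u ≠ 0) (hv : v ≠ 0) (hv1 : v ≠ 1) {W : Affine K}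
    (hW : W = tateCurve (u * (1 + v - v ^ 2)) (-u ^ 3 * v ^ 2 * (v - 1))
      (-u ^ 2 * v ^ 2 * (v - 1))) (h : W.Nonsingular 0 0) :
    7 • Affine.Point.some 0 0 h = 0 := by
  have hv1' : v - 1 ≠ 0 := sub_ne_zero.2 hv1
  have hy : (0 : K) ≠ W.negY 0 0 := by
    simp only [Affine.negY, hW, tateCurve]
    intro h0
    have hb : u ^ 3 * v ^ 2 * (v - 1) ≠ 0 :=
      mul_ne_zero (mul_ne_zero (pow_ne_zero _ hu) (pow_ne_zero _ hv)) hv1'
    exact hb (by linear_combination -h0)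
  obtain ⟨h3, h4⟩ := add_tangent W (x₃ := u ^ 2 * (v ^ 2 * (v - 1)))
    (y₃ := u ^ 3 * (v ^ 3 * (v - 1) ^ 2)) (l := 0) h hy
    (by simp [hW, tateCurve]) (by simp only [hW, tateCurve]; ring)
    (by simp only [hW, tateCurve]; ring)
  have hx : (0 : K) ≠ u ^ 2 * (v ^ 2 * (v - 1)) :=
    (mul_ne_zero (pow_ne_zero _ hu) (mul_ne_zero (pow_ne_zero _ hv) hv1')).symm
  obtain ⟨h5, h6⟩ := add_chord W (x₃ := u ^ 2 * (v * (v - 1))) (y₃ := u ^ 3 * (v * (v - 1) ^ 2))
    (l := u * (v * (v - 1))) h h3 hx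
    (by ring) (by simp only [hW, tateCurve]; ring) (by simp only [hW, tateCurve]; ring)
  have hx' : (0 : K) ≠ u ^ 2 * (v * (v - 1)) :=
    (mul_ne_zero (pow_ne_zero _ hu) (mul_ne_zero hv hv1')).symm
  obtain ⟨h7, h8⟩ := add_chord W (x₃ := u ^ 2 * (v * (v - 1)))
    (y₃ := u ^ 3 * (v * (v - 1)) ^ 2) (l := u * (v - 1)) h h5 hx'
    (by ring) (by simp only [hW, tateCurve]; ring) (by simp only [hW, tateCurve]; ring)
  exact seven_aux h4 h6 h8 (neg_eq _ h5 h7 (by simp only [hW, tateCurve]; ring))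

end tate

section fibre

variable {K : Type} [Field K]

theorem disc_three (a b : K) : (tateCurve a b 0).Δ = b ^ 3 * (a ^ 3 - 27 * b) := by
  simp only [tateCurve, WeierstrassCurve.Δ, b₂, b₄, b₆, b₈]
  ring

theorem disc_five (u v : K) : (tateCurve (u * (1 - v)) (-u ^ 3 * v) (-u ^ 2 * v)).Δ =
    u ^ 12 * v ^ 5 * (v ^ 2 - 11 * v - 1) := by
  simp only [tateCurve, WeierstrassCurve.Δ, b₂, b₄, b₆, b₈]
  ring

theorem disc_seven (u v : K) : (tateCurve (u * (1 + v - v ^ 2)) (-u ^ 3 * v ^ 2 * (v - 1))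
      (-u ^ 2 * v ^ 2 * (v - 1))).Δ =
    u ^ 12 * v ^ 7 * (v - 1) ^ 7 * (v ^ 3 - 8 * v ^ 2 + 5 * v + 1) := by
  simp only [tateCurve, WeierstrassCurve.Δ, b₂, b₄, b₆, b₈]
  ring

theorem sing_three (h3 : (3 : K) ≠ 0) {a b : K} (hb : b ≠ 0) (hΔ : (tateCurve a b 0).Δ = 0) :
    ∃ x y, Sing (tateCurve a b 0) x y := by
  rw [disc_three] at hΔ
  have h := (mul_eq_zero.1 hΔ).resolve_left (pow_ne_zero _ hb)
  have h27 : a ^ 3 = 27 * b := by linear_combination h
  have h9 : (9 : K) ≠ 0 := by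
    have : (9 : K) = 3 * 3 := by norm_num
    rw [this]
    exact mul_ne_zero h3 h3
  refine ⟨-a ^ 2 / 9, b, ?_⟩
  rw [sing_iff, Affine.equation_iff']
  simp only [tateCurve]
  refine ⟨?_, ?_, ?_⟩
  · field_simp
    linear_combination (a ^ 3 - 54 * b) * h
  · field_simp
    linear_combination -3 * a * h
  · field_simp
    linear_combination -h

theorem sing_five (h5 : (5 : K) ≠ 0) {u v : K} (hu : u ≠ 0) (hv : v ≠ 0)
    (hΔ : (tateCurve (u * (1 - v)) (-u ^ 3 * v) (-u ^ 2 * v)).Δ = 0) :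
    ∃ x y, Sing (tateCurve (u * (1 - v)) (-u ^ 3 * v) (-u ^ 2 * v)) x y := by
  rw [disc_five] at hΔ
  have h := (mul_eq_zero.1 hΔ).resolve_left (mul_ne_zero (pow_ne_zero _ hu) (pow_ne_zero _ hv))
  refine ⟨-u ^ 2 * (1 + 3 * v) / 5, -u ^ 3 * (1 + 13 * v) / 5, ?_⟩
  rw [sing_iff, Affine.equation_iff']
  simp only [tateCurve]
  refine ⟨?_, ?_, ?_⟩
  · field_simp
    linear_combination u ^ 6 * (-11 - 123 * v) * h
  · field_simp
    linear_combination 8 * u ^ 4 * h
  · field_simp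
    linear_combination 3 * u ^ 3 * h

theorem sing_seven (h7 : (7 : K) ≠ 0) {u v : K} (hu : u ≠ 0) (hv : v ≠ 0) (hv1 : v ≠ 1)
    (hΔ : (tateCurve (u * (1 + v - v ^ 2)) (-u ^ 3 * v ^ 2 * (v - 1))
      (-u ^ 2 * v ^ 2 * (v - 1))).Δ = 0) :
    ∃ x y, Sing (tateCurve (u * (1 + v - v ^ 2)) (-u ^ 3 * v ^ 2 * (v - 1))
      (-u ^ 2 * v ^ 2 * (v - 1))) x y := by
  rw [disc_seven] at hΔ
  have h := (mul_eq_zero.1 hΔ).resolve_left (mul_ne_zero (mul_ne_zero (pow_ne_zero _ hu)
    (pow_ne_zero _ hv)) (pow_ne_zero _ (sub_ne_zero.2 hv1)))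
  refine ⟨u ^ 2 * (1 + 8 * v - 12 * v ^ 2) / 7, u ^ 3 * (34 + 174 * v - 247 * v ^ 2) / 7, ?_⟩
  rw [sing_iff, Affine.equation_iff']
  simp only [tateCurve]
  refine ⟨?_, ?_, ?_⟩
  · field_simp
    linear_combination
      u ^ 6 * (8329 + 44515 * v - 52037 * v ^ 2 - 13308 * v ^ 3 + 1008 * v ^ 4) * h
  · field_simp
    linear_combination u ^ 4 * (235 + 233 * v - 168 * v ^ 2) * h
  · field_simp
    linear_combination u ^ 3 * (69 + 12 * v) * h

open Classical in
/-- the properties of the fibres -/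
theorem tate_fibre {ℓ : ℕ} (hℓ : (ℓ : K) ≠ 0) {a b c : K} (h : IsTate ℓ a b c) (hb : b ≠ 0) :
    (∀ h0 : (tateCurve a b c).Nonsingular 0 0, ℓ • Affine.Point.some 0 0 h0 = 0) ∧
      ((tateCurve a b c).Δ = 0 → ∃ x y, Sing (tateCurve a b c) x y) := by
  rcases h with ⟨rfl, rfl⟩ | ⟨rfl, h⟩ | ⟨rfl, h⟩
  · exact ⟨fun h0 => three_torsion hb rfl h0, sing_three (by exact_mod_cast hℓ) hb⟩
  · have hc : c ≠ 0 := by
      rintro rfl
      exact hb (pow_eq_zero_iff two_ne_zero |>.1 (by linear_combination h))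
    obtain ⟨u, hu⟩ : ∃ u : K, u = b / c := ⟨_, rfl⟩
    obtain ⟨v, hv⟩ : ∃ v : K, v = -c ^ 3 / b ^ 2 := ⟨_, rfl⟩
    have hu0 : u ≠ 0 := by rw [hu]; exact div_ne_zero hb hc
    have hv0 : v ≠ 0 := by
      rw [hv]
      exact div_ne_zero (neg_ne_zero.2 (pow_ne_zero _ hc)) (pow_ne_zero _ hb)
    have h1 : a = u * (1 - v) := by
      rw [hu, hv]
      field_simp
      linear_combination -h
    have h2 : b = -u ^ 3 * v := by
      rw [hu, hv]
      field_simp
    have h3 : c = -u ^ 2 * v := by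
      rw [hu, hv]
      field_simp
    have hW : tateCurve a b c = tateCurve (u * (1 - v)) (-u ^ 3 * v) (-u ^ 2 * v) := by
      rw [← h1, ← h2, ← h3]
    refine ⟨fun h0 => five_torsion hu0 hv0 hW h0, ?_⟩
    rw [hW]
    exact sing_five (by exact_mod_cast hℓ) hu0 hv0
  · have hc : c ≠ 0 := by
      rintro rfl
      exact hb (pow_eq_zero_iff (n := 4) (by norm_num) |>.1 (by linear_combination h))
    have hd : b - a * c ≠ 0 := by
      intro h0
      rw [h0] at h
      exact hc (pow_eq_zero_iff (n := 6) (by norm_num) |>.1 (by linear_combination -h))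
    have he : b * (b - a * c) + c ^ 3 ≠ 0 := by
      intro h0
      rw [h0, mul_zero] at h
      exact (mul_ne_zero hb (pow_ne_zero _ hd)) h
    obtain ⟨d, hdd⟩ : ∃ d : K, d = b - a * c := ⟨_, rfl⟩
    rw [← hdd] at h hd he
    obtain ⟨u, hu⟩ : ∃ u : K, u = b / c := ⟨_, rfl⟩
    obtain ⟨v, hv⟩ : ∃ v : K, v = -c ^ 3 / (b * d) := ⟨_, rfl⟩
    have hu0 : u ≠ 0 := by rw [hu]; exact div_ne_zero hb hc
    have hv0 : v ≠ 0 := by
      rw [hv]
      exact div_ne_zero (neg_ne_zero.2 (pow_ne_zero _ hc)) (mul_ne_zero hb hd)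
    have hv1 : v - 1 = -(b * d + c ^ 3) / (b * d) := by
      rw [hv]
      field_simp
      ring
    have hv1' : v ≠ 1 := by
      rw [Ne, ← sub_eq_zero, hv1]
      exact div_ne_zero (neg_ne_zero.2 he) (mul_ne_zero hb hd)
    have hγ : v * (v - 1) = d / b := by
      rw [hv1, hv]
      field_simp
      linear_combination -h
    have h1 : a = u * (1 + v - v ^ 2) := by
      have h4 : 1 + v - v ^ 2 = 1 - d / b := by rw [← hγ]; ring
      rw [h4, hu, hdd]
      field_simp
      ring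
    have h3 : c = -u ^ 2 * v ^ 2 * (v - 1) := by
      have h4 : -u ^ 2 * v ^ 2 * (v - 1) = -u ^ 2 * v * (v * (v - 1)) := by ring
      rw [h4, hγ, hu, hv]
      field_simp
    have h2 : b = -u ^ 3 * v ^ 2 * (v - 1) := by
      have h4 : -u ^ 3 * v ^ 2 * (v - 1) = u * (-u ^ 2 * v ^ 2 * (v - 1)) := by ring
      rw [h4, ← h3, hu]
      field_simp
    have hW : tateCurve a b c = tateCurve (u * (1 + v - v ^ 2)) (-u ^ 3 * v ^ 2 * (v - 1))
        (-u ^ 2 * v ^ 2 * (v - 1)) := by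
      rw [← h1, ← h2, ← h3]
    refine ⟨fun h0 => seven_torsion hu0 hv0 hv1' hW h0, ?_⟩
    rw [hW]
    exact sing_seven (by exact_mod_cast hℓ) hu0 hv0 hv1'

open Classical in
/-- the number of the points of a fibre -/
theorem card_tate [Finite K] {ℓ : ℕ} [Fact ℓ.Prime] (hℓ : (ℓ : K) ≠ 0)
    (hK : (Nat.card K : ZMod ℓ) = 1) {a b c : K} (h : IsTate ℓ a b c) :
    (Nat.card {z : K × K // (tateCurve a b c).Equation z.1 z.2} : ZMod ℓ) =
      -1 + if (tateCurve a b c).Δ = 0 then (if a = 0 ∧ b = 0 then 2 else 1) else 0 := by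
  by_cases hb : b = 0
  · have hc := h.c_zero hb
    subst hb
    subst hc
    have h1 : (tateCurve a 0 0).Δ = 0 := by
      rw [disc_three]
      ring
    rw [if_pos h1]
    have h2 : Nat.card {z : K × K // (tateCurve a 0 0).Equation z.1 z.2} =
        Nat.card {z : K × K // z.2 ^ 2 + a * z.1 * z.2 - z.1 ^ 3 = 0} := by
      refine Nat.card_congr (Equiv.subtypeEquivRight fun z => ?_)
      rw [Affine.equation_iff']
      simp only [tateCurve]
      ring_nf
    rw [h2, card_param' hK]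
    by_cases ha : a = 0
    · rw [if_pos ha, if_pos ⟨ha, rfl⟩]
      ring
    · rw [if_neg ha, if_neg fun h => ha h.1]
      ring
  · have h0 : (tateCurve a b c).Nonsingular 0 0 := by
      rw [Affine.nonsingular_zero]
      exact ⟨rfl, Or.inl hb⟩
    obtain ⟨h1, h2⟩ := tate_fibre hℓ h hb
    rw [card_of_order _ h0 (h1 h0) h2]
    split_ifs with hΔ hab
    · exact absurd hab.2 hb
    · ring
    · ring

end fibre

end Pool.Agent.Helper41.ST
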