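import Pool.Agent.Helper41.ST.Defs
import Pool.Agent.Helper41.ST.Torsion

/-!
# Examples of level structures modulo `ℓ`
-/

open Module Polynomial

namespace Pool.Agent.Helper41.ST

section general

variable {k : Type} [Field k]

/-- the points over `t` of a surface in three-space -/
theorem card_fibre (f : MvPolynomial (Fin 3) k) {K : Type} [Field K] [Algebra k K] (t : K) :
    Nat.card {P : points (n := 2) {f} K // P.1 0 = t} =
      Nat.card {z : K × K // MvPolynomial.aeval ![t, z.1, z.2] f = 0} := by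
  refine Nat.card_congr ⟨fun P => ⟨(P.1.1 1, P.1.1 2), ?_⟩, fun z => ⟨⟨![t, z.1.1, z.1.2], ?_⟩,
    rfl⟩, ?_, ?_⟩
  · have h1 : ![t, P.1.1 1, P.1.1 2] = P.1.1 := by
      funext i
      fin_cases i
      · exact P.2.symm
      · rfl
      · rfl
    rw [h1]
    exact P.1.2 f rfl
  · intro g hg
    rw [Set.mem_singleton_iff] at hg
    rw [hg]
    exact z.2
  · intro P
    apply Subtype.ext
    apply Subtype.ext
    funext i
    fin_cases i
    · exact P.2.symm
    · rfl
    · rfl
  · intro z
    rfl

theorem aeval_aeval {K : Type} [Field K] [Algebra k K] (P : Fin 3 → K) (f : k[X]) :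
    MvPolynomial.aeval P (aeval (MvPolynomial.X 0 : MvPolynomial (Fin 3) k) f) =
      aeval (P 0) f := by
  rw [← Polynomial.aeval_algHom_apply, MvPolynomial.aeval_X]

open Classical in
/-- level structures with a count which depends on the closed point only -/
theorem level_of {G : Gp} {ℓ n : ℕ} {I : Set (MvPolynomial (Fin (n + 1)) k)} {S : Finset k[X]}
    (c : ZMod ℓ) (d : k[X] → ZMod ℓ)
    (hS : ∀ π, π ∈ S ↔ (Irreducible π ∧ π.Monic) ∧ G.val π ∈ G.pts k ∧ d π ≠ 0)
    (h : ∀ (K : Type) [Field K] [Finite K] [Algebra k K], (Nat.card K : ZMod ℓ) = 1 →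
      ∀ t : K, (Nat.card {P : points I K // P.1 0 = t} : ZMod ℓ) = c + d (minpoly k t)) :
    Level G ℓ I S := by
  refine ⟨fun π hπ => ⟨((hS π).1 hπ).1, ((hS π).1 hπ).2.1⟩, d,
    fun π hπ => ((hS π).1 hπ).2.2, ?_⟩
  intro K _ _ _ hK
  refine ⟨c, fun t ht => ?_⟩
  rw [h K hK t]
  congr 1
  have hint : IsIntegral k t := by
    have : Module.Finite k K := inferInstance
    exact IsIntegral.of_finite k t
  have hmin : ∀ π ∈ S, aeval t π = 0 → π = minpoly k t := fun π hπ h0 =>
    minpoly.eq_of_irreducible_of_monic ((hS π).1 hπ).1.1 h0 ((hS π).1 hπ).1.2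
  by_cases hm : minpoly k t ∈ S
  · rw [Finset.sum_eq_single (minpoly k t), if_pos (minpoly.aeval k t)]
    · intro π hπ hne
      rw [if_neg fun h0 => hne (hmin π hπ h0)]
    · intro h'
      exact absurd hm h'
  · rw [Finset.sum_eq_zero]
    · by_contra hd
      refine hm ((hS _).2 ⟨⟨minpoly.irreducible hint, minpoly.monic hint⟩, ?_, hd⟩)
      cases G with
      | add => exact Set.mem_univ _
      | mul =>
        have ht0 : t ≠ 0 := ht
        exact mul_ne_zero (pow_ne_zero _ (neg_ne_zero.2 one_ne_zero))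
          (minpoly.coeff_zero_ne_zero hint ht0)
    · intro π hπ
      rw [if_neg]
      intro h0
      exact hm (by rwa [← hmin π hπ h0])

end general

section sections

variable {k : Type} [Field k]

/-- the equation `y ∏ (x - A_a(t)) = 1` of the complement of the sections `x = A_a(t)` -/
noncomputable def sections {n : ℕ} (A : Fin n → k[X]) : MvPolynomial (Fin 3) k :=
  MvPolynomial.X 2 * ∏ a, (MvPolynomial.X 1 - aeval (MvPolynomial.X 0) (A a)) - 1

theorem aeval_sections {n : ℕ} (A : Fin n → k[X]) {K : Type} [Field K] [Algebra k K] (t x y : K) :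
    MvPolynomial.aeval ![t, x, y] (sections A) = y * ∏ a, (x - aeval t (A a)) - 1 := by
  rw [sections, map_sub, map_mul, map_one, map_prod, MvPolynomial.aeval_X]
  congr 2
  refine Finset.prod_congr rfl fun a _ => ?_
  rw [map_sub, MvPolynomial.aeval_X, aeval_aeval]
  rfl

/-- the number of the classes of the polynomials modulo `π` -/
noncomputable def classes {n : ℕ} (A : Fin n → k[X]) (π : k[X]) : ℕ :=
  Nat.card (Set.range fun a => AdjoinRoot.mk π (A a))

open Classical in
/-- the complement of sections -/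
theorem level_sections {G : Gp} {ℓ : ℕ} {n : ℕ} {A : Fin n → k[X]} {S : Finset k[X]}
    (hS : ∀ π, π ∈ S ↔ (Irreducible π ∧ π.Monic) ∧ G.val π ∈ G.pts k ∧
      (classes A π : ZMod ℓ) ≠ n) : Level G ℓ {sections A} S := by
  refine level_of (1 - n) (fun π => n - classes A π) ?_ ?_
  · intro π
    rw [hS π, Ne, Ne, sub_eq_zero, eq_comm (a := (n : ZMod ℓ))]
  intro K _ _ _ hK t
  have := Fintype.ofFinite K
  set J : Finset K := Finset.univ.image fun a => aeval t (A a) with hJ
  have hcount : Nat.card {P : points (n := 2) {sections A} K // P.1 0 = t} + J.card =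
      Nat.card K := by
    rw [card_fibre]
    have h1 : Nat.card {z : K × K // MvPolynomial.aeval ![t, z.1, z.2] (sections A) = 0} =
        (Jᶜ : Finset K).card := by
      rw [← Fintype.card_coe, ← Nat.card_eq_fintype_card]
      refine Nat.card_congr ⟨fun z => ⟨z.1.1, ?_⟩, fun x => ⟨(x.1, (∏ a, (x.1 - aeval t (A a)))⁻¹),
        ?_⟩, ?_, ?_⟩
      · rw [Finset.mem_compl]
        intro h
        obtain ⟨a, -, ha⟩ := Finset.mem_image.1 h
        have h2 := z.2
        rw [aeval_sections, Finset.prod_eq_zero (Finset.mem_univ a) (by rw [ha, sub_self]),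
          mul_zero, zero_sub, neg_eq_zero] at h2
        exact one_ne_zero h2
      · have h2 : ∏ a, (x.1 - aeval t (A a)) ≠ 0 := by
          rw [Finset.prod_ne_zero_iff]
          intro a _ h
          exact Finset.mem_compl.1 x.2 (Finset.mem_image.2 ⟨a, Finset.mem_univ a,
            (sub_eq_zero.1 h).symm⟩)
        change MvPolynomial.aeval ![t, x.1, (∏ a, (x.1 - aeval t (A a)))⁻¹] (sections A) = 0
        rw [aeval_sections, inv_mul_cancel₀ h2, sub_self]
      · intro z
        have h2 := z.2
        rw [aeval_sections, sub_eq_zero] at h2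
        apply Subtype.ext
        apply Prod.ext
        · rfl
        · exact (eq_inv_of_mul_eq_one_left h2).symm
      · intro x
        rfl
    rw [h1, Finset.card_compl, Nat.card_eq_fintype_card]
    exact Nat.sub_add_cancel (Finset.card_le_univ J)
  have hcl : classes A (minpoly k t) = J.card := by
    have hint : IsIntegral k t := IsIntegral.of_finite k t
    have : Fact (Irreducible (minpoly k t)) := ⟨minpoly.irreducible hint⟩
    let φ : AdjoinRoot (minpoly k t) →+* K :=
      AdjoinRoot.lift (algebraMap k K) t (minpoly.aeval k t)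
    have hφ : ∀ f : k[X], φ (AdjoinRoot.mk (minpoly k t) f) = aeval t f := fun f =>
      AdjoinRoot.lift_mk _ f
    have h1 : (J : Set K) = φ '' Set.range fun a => AdjoinRoot.mk (minpoly k t) (A a) := by
      ext x
      simp only [hJ, Finset.coe_image, Finset.coe_univ, Set.image_univ, Set.mem_range,
        Set.mem_image, exists_exists_eq_and, hφ]
    rw [classes, ← Nat.card_image_of_injective φ.injective, ← h1, Nat.card_coe_set_eq,
      Set.ncard_coe_finset]
  rw [hcl]
  have h2 := congrArg (Nat.cast : ℕ → ZMod ℓ) hcount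
  rw [Nat.cast_add, hK] at h2
  linear_combination h2

end sections

section two

variable {k : Type} [Field k]

/-- the equation `y ^ 2 = x (x ^ 2 + a(t) x + b(t))` -/
noncomputable def twoTorsion (a b : k[X]) : MvPolynomial (Fin 3) k :=
  MvPolynomial.X 2 ^ 2 - MvPolynomial.X 1 * (MvPolynomial.X 1 ^ 2 +
    aeval (MvPolynomial.X 0) a * MvPolynomial.X 1 + aeval (MvPolynomial.X 0) b)

theorem aeval_two (a b : k[X]) {K : Type} [Field K] [Algebra k K] (t x y : K) :
    MvPolynomial.aeval ![t, x, y] (twoTorsion a b) =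
      y ^ 2 - x * (x ^ 2 + aeval t a * x + aeval t b) := by
  simp only [twoTorsion, map_sub, map_mul, map_add, map_pow, MvPolynomial.aeval_X, aeval_aeval]
  rfl

open Classical in
/-- an involution -/
theorem card_fixed {α : Type} [Finite α] {q n : ℕ} [Fact q.Prime] (f : Function.End α)
    (hf : f ^ q ^ n = 1) :
    (Nat.card α : ZMod q) = Nat.card {x : α // f x = x} := by
  have := Fintype.ofFinite α
  have h := Equiv.Perm.card_fixedPoints_modEq (f := f) hf
  rw [← ZMod.natCast_eq_natCast_iff] at h
  rw [Nat.card_eq_fintype_card, h, Nat.card_eq_fintype_card]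
  rfl

open Classical in
/-- the roots of a polynomial of degree two -/
theorem card_quadratic {K : Type} [Field K] [Finite K] (h2 : (2 : K) ≠ 0) (A B : K) :
    (Nat.card {x : K // x ^ 2 + A * x + B = 0} : ZMod 2) = if A ^ 2 - 4 * B = 0 then 1 else 0 := by
  have : Fact (Nat.Prime 2) := ⟨Nat.prime_two⟩
  have hf : ∀ x : {x : K // x ^ 2 + A * x + B = 0}, (-A - x.1) ^ 2 + A * (-A - x.1) + B = 0 := by
    intro x
    linear_combination x.2
  rw [card_fixed (q := 2) (n := 1) (fun x : {x : K // x ^ 2 + A * x + B = 0} =>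
    (⟨-A - x.1, hf x⟩ : {x : K // x ^ 2 + A * x + B = 0})) (by
      rw [pow_one, pow_two]
      funext x
      apply Subtype.ext
      change -A - (-A - x.1) = x.1
      ring)]
  have hfix : ∀ x : {x : K // x ^ 2 + A * x + B = 0},
      (⟨-A - x.1, hf x⟩ : {x : K // x ^ 2 + A * x + B = 0}) = x ↔ 2 * x.1 = -A := by
    intro x
    rw [Subtype.ext_iff]
    constructor
    · intro h
      linear_combination -h
    · intro h
      linear_combination -h
  split_ifs with hD
  · have h1 : Nat.card {x : {x : K // x ^ 2 + A * x + B = 0} //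
        (⟨-A - x.1, hf x⟩ : {x : K // x ^ 2 + A * x + B = 0}) = x} = 1 := by
      rw [Nat.card_eq_one_iff_unique]
      constructor
      · constructor
        intro x y
        apply Subtype.ext
        apply Subtype.ext
        have hx := (hfix x.1).1 x.2
        have hy := (hfix y.1).1 y.2
        exact mul_left_cancel₀ h2 (hx.trans hy.symm)
      · have h3 : (-A / 2) ^ 2 + A * (-A / 2) + B = 0 := by
          have h4 : (4 : K) ≠ 0 := by
            have : (4 : K) = 2 * 2 := by norm_num
            rw [this]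
            exact mul_ne_zero h2 h2
          field_simp
          linear_combination -hD
        exact ⟨⟨⟨-A / 2, h3⟩, (hfix _).2 (mul_div_cancel₀ _ h2)⟩⟩
    rw [h1, Nat.cast_one]
  · have h1 : IsEmpty {x : {x : K // x ^ 2 + A * x + B = 0} //
        (⟨-A - x.1, hf x⟩ : {x : K // x ^ 2 + A * x + B = 0}) = x} := by
      constructor
      intro x
      apply hD
      have hx := (hfix x.1).1 x.2
      have h3 := x.1.2
      linear_combination (A + 2 * x.1.1) * hx - 4 * h3
    rw [Nat.card_of_isEmpty, Nat.cast_zero]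

open Classical in
/-- elliptic surfaces with a section of order two -/
theorem level_two {G : Gp} {a b : k[X]} {S : Finset k[X]} (h2 : (2 : k) ≠ 0)
    (hS : ∀ π, π ∈ S ↔ (Irreducible π ∧ π.Monic) ∧ G.val π ∈ G.pts k ∧
      ¬ (π ∣ b ↔ π ∣ a ^ 2 - 4 * b)) : Level G 2 {twoTorsion a b} S := by
  have : Fact (Nat.Prime 2) := ⟨Nat.prime_two⟩
  refine level_of 1 (fun π => if (π ∣ b ↔ π ∣ a ^ 2 - 4 * b) then 0 else 1) ?_ ?_
  · intro π
    rw [hS π]
    by_cases h : (π ∣ b ↔ π ∣ a ^ 2 - 4 * b)
    · rw [if_pos h]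
      tauto
    · rw [if_neg h]
      have h1 : (1 : ZMod 2) ≠ 0 := one_ne_zero
      tauto
  intro K _ _ _ hK t
  have h2K : (2 : K) ≠ 0 := by
    intro h
    apply h2
    apply (algebraMap k K).injective
    rw [map_ofNat, map_zero, h]
  set A := aeval t a with hA
  set B := aeval t b with hB
  -- the points with `y = 0`
  have hc1 : (Nat.card {P : points (n := 2) {twoTorsion a b} K // P.1 0 = t} : ZMod 2) =
      Nat.card {x : K // x * (x ^ 2 + A * x + B) = 0} := by
    rw [card_fibre]
    have hinv : ∀ z : {z : K × K // MvPolynomial.aeval ![t, z.1, z.2] (twoTorsion a b) = 0},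
        MvPolynomial.aeval ![t, z.1.1, -z.1.2] (twoTorsion a b) = 0 := by
      intro z
      have := z.2
      rw [aeval_two] at this ⊢
      rw [neg_sq]
      exact this
    rw [card_fixed (q := 2) (n := 1)
      (fun z : {z : K × K // MvPolynomial.aeval ![t, z.1, z.2] (twoTorsion a b) = 0} =>
        (⟨(z.1.1, -z.1.2), hinv z⟩ :
          {z : K × K // MvPolynomial.aeval ![t, z.1, z.2] (twoTorsion a b) = 0})) (by
        rw [pow_one, pow_two]
        funext z
        apply Subtype.ext
        apply Prod.ext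
        · rfl
        · exact neg_neg _)]
    congr 1
    refine Nat.card_congr ⟨fun z => ⟨z.1.1.1, ?_⟩, fun x => ⟨⟨(x.1, 0), ?_⟩, ?_⟩, ?_, ?_⟩
    · have h1 := z.1.2
      have h3 : -z.1.1.2 = z.1.1.2 := congrArg (fun w => w.1.2) z.2
      have h4 : z.1.1.2 = 0 := by
        have h5 : 2 * z.1.1.2 = 0 := by linear_combination -h3
        exact (mul_eq_zero.1 h5).resolve_left h2K
      rw [aeval_two, h4] at h1
      linear_combination -h1
    · change MvPolynomial.aeval ![t, x.1, 0] (twoTorsion a b) = 0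
      rw [aeval_two]
      linear_combination -x.2
    · apply Subtype.ext
      apply Prod.ext
      · rfl
      · exact neg_zero
    · intro z
      have h3 : -z.1.1.2 = z.1.1.2 := congrArg (fun w => w.1.2) z.2
      have h4 : z.1.1.2 = 0 := by
        have h5 : 2 * z.1.1.2 = 0 := by linear_combination -h3
        exact (mul_eq_zero.1 h5).resolve_left h2K
      apply Subtype.ext
      apply Subtype.ext
      apply Prod.ext
      · rfl
      · exact h4.symm
    · intro x
      rfl
  have hc2 : (Nat.card {x : K // x * (x ^ 2 + A * x + B) = 0} : ZMod 2) =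
      1 + (if A ^ 2 - 4 * B = 0 then 1 else 0) + (if B = 0 then 1 else 0) := by
    have := Fintype.ofFinite K
    have h1 : (Finset.univ.filter fun x : K => x * (x ^ 2 + A * x + B) = 0) =
        insert 0 ((Finset.univ.filter fun x : K => x ^ 2 + A * x + B = 0)) := by
      ext x
      simp [mul_eq_zero]
    have h3 : ∀ q : K → Prop, Nat.card {x : K // q x} = (Finset.univ.filter fun x => q x).card := by
      intro q
      rw [Nat.card_eq_fintype_card, Fintype.card_subtype]
    have h4 := card_quadratic h2K A B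
    rw [h3] at h4 ⊢
    rw [h1]
    by_cases hB0 : B = 0
    · rw [Finset.insert_eq_of_mem (by simp [hB0]), h4, if_pos hB0]
      have h5 : (1 : ZMod 2) + 1 = 0 := CharTwo.add_self_eq_zero 1
      linear_combination (-1 : ZMod 2) * h5
    · rw [Finset.card_insert_of_notMem (by simp [hB0]), Nat.cast_add, h4, if_neg hB0]
      push_cast
      ring
  rw [hc1, hc2]
  have hD : A ^ 2 - 4 * B = aeval t (a ^ 2 - 4 * b) := by
    rw [map_sub, map_pow, map_mul, map_ofNat]
  have h3 : B = 0 ↔ minpoly k t ∣ b := (minpoly.dvd_iff).symm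
  have h4 : A ^ 2 - 4 * B = 0 ↔ minpoly k t ∣ a ^ 2 - 4 * b := by
    rw [hD]
    exact (minpoly.dvd_iff).symm
  have h5 : (1 : ZMod 2) + 1 = 0 := CharTwo.add_self_eq_zero 1
  rw [← h3, ← h4]
  by_cases h6 : B = 0
  · by_cases h7 : A ^ 2 - 4 * B = 0
    · rw [if_pos h6, if_pos h7, if_pos ⟨fun _ => h7, fun _ => h6⟩]
      linear_combination h5
    · rw [if_pos h6, if_neg h7, if_neg fun h => h7 (h.1 h6)]
      ring
  · by_cases h7 : A ^ 2 - 4 * B = 0
    · rw [if_neg h6, if_pos h7, if_neg fun h => h6 (h.2 h7)]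
      ring
    · rw [if_neg h6, if_neg h7, if_pos ⟨fun h => absurd h h6, fun h => absurd h h7⟩]
      ring

end two

section tate

variable {k : Type} [Field k]

/-- the equation `y ^ 2 + a(t) x y + b(t) y = x ^ 3 + c(t) x ^ 2` -/
noncomputable def tate (a b c : k[X]) : MvPolynomial (Fin 3) k :=
  MvPolynomial.X 2 ^ 2 + aeval (MvPolynomial.X 0) a * MvPolynomial.X 1 * MvPolynomial.X 2 +
    aeval (MvPolynomial.X 0) b * MvPolynomial.X 2 -
      (MvPolynomial.X 1 ^ 3 + aeval (MvPolynomial.X 0) c * MvPolynomial.X 1 ^ 2)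

theorem aeval_tate (a b c : k[X]) {K : Type} [Field K] [Algebra k K] (t x y : K) :
    MvPolynomial.aeval ![t, x, y] (tate a b c) =
      y ^ 2 + aeval t a * x * y + aeval t b * y - (x ^ 3 + aeval t c * x ^ 2) := by
  simp only [tate, map_sub, map_mul, map_add, map_pow, MvPolynomial.aeval_X, aeval_aeval]
  rfl

open Classical in
/-- elliptic surfaces with a section of order three, five or seven -/
theorem level_tate {G : Gp} {ℓ : ℕ} [hℓp : Fact ℓ.Prime] {a b c : k[X]} {S : Finset k[X]}
    (hℓ : (ℓ : k) ≠ 0) (h : IsTate ℓ a b c)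
    (hS : ∀ π, π ∈ S ↔ (Irreducible π ∧ π.Monic) ∧ G.val π ∈ G.pts k ∧
      π ∣ (tateCurve a b c).Δ) : Level G ℓ {tate a b c} S := by
  have h2 : (2 : ZMod ℓ) ≠ 0 := by
    intro h2
    have h3 : ((2 : ℕ) : ZMod ℓ) = 0 := by exact_mod_cast h2
    rw [ZMod.natCast_eq_zero_iff, Nat.prime_dvd_prime_iff_eq hℓp.out Nat.prime_two] at h3
    rcases h with ⟨h, -⟩ | ⟨h, -⟩ | ⟨h, -⟩ <;> omega
  refine level_of (-1) (fun π => if π ∣ (tateCurve a b c).Δ then
    (if π ∣ a ∧ π ∣ b then 2 else 1) else 0) ?_ ?_
  · intro π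
    rw [hS π]
    by_cases h3 : π ∣ (tateCurve a b c).Δ
    · rw [if_pos h3]
      have h4 : (if π ∣ a ∧ π ∣ b then 2 else 1 : ZMod ℓ) ≠ 0 := by
        split_ifs
        · exact h2
        · exact one_ne_zero
      tauto
    · rw [if_neg h3]
      tauto
  intro K _ _ _ hK t
  have hℓK : (ℓ : K) ≠ 0 := by
    intro h0
    apply hℓ
    apply (algebraMap k K).injective
    rw [map_natCast, map_zero, h0]
  have h3 := card_tate hℓK hK (h.map (aeval t : k[X] →ₐ[k] K).toRingHom)
  have hΔ : (tateCurve ((aeval t : k[X] →ₐ[k] K).toRingHom a)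
      ((aeval t : k[X] →ₐ[k] K).toRingHom b) ((aeval t : k[X] →ₐ[k] K).toRingHom c)).Δ =
        aeval t (tateCurve a b c).Δ := by
    simp only [tateCurve, WeierstrassCurve.Δ, WeierstrassCurve.b₂, WeierstrassCurve.b₄,
      WeierstrassCurve.b₆, WeierstrassCurve.b₈, AlgHom.toRingHom_eq_coe, RingHom.coe_coe,
      map_sub, map_add, map_mul, map_pow, map_neg, map_ofNat, map_zero]
  rw [hΔ] at h3
  have h4 : ∀ f : k[X], minpoly k t ∣ f ↔ aeval t f = 0 := fun f => minpoly.dvd_iff
  simp only [h4]
  rw [card_fibre]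
  have h5 : Nat.card {z : K × K // MvPolynomial.aeval ![t, z.1, z.2] (tate a b c) = 0} =
      Nat.card {z : K × K // (tateCurve ((aeval t : k[X] →ₐ[k] K).toRingHom a)
      ((aeval t : k[X] →ₐ[k] K).toRingHom b)
        ((aeval t : k[X] →ₐ[k] K).toRingHom c)).Equation z.1 z.2} := by
    refine Nat.card_congr (Equiv.subtypeEquivRight fun z => ?_)
    rw [WeierstrassCurve.Affine.equation_iff', aeval_tate]
    simp only [tateCurve, AlgHom.toRingHom_eq_coe, RingHom.coe_coe, zero_mul, add_zero]
  rw [h5]
  exact h3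

end tate

end Pool.Agent.Helper41.ST
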