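import Mathlib

/-!
# Values of characters at points of the ground field which do not split in the cover
-/

open Module

namespace Pool.Agent.Helper41.ST

section add

variable {k K₀ L : Type} [Field k] [Field K₀] [Finite K₀] [Algebra k K₀] [Field L] {p : ℕ}
    [hp : Fact p.Prime] [CharP k p]

omit [Finite K₀] in
theorem trace_pow_char [Finite K₀] (y : K₀) :
    Algebra.trace k K₀ (y ^ p) = Algebra.trace k K₀ y ^ p := by
  classical
  have : Finite k := Finite.of_injective _ (algebraMap k K₀).injective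
  have : CharP K₀ p := charP_of_injective_algebraMap (algebraMap k K₀).injective p
  apply (algebraMap k K₀).injective
  rw [map_pow (algebraMap k K₀), trace_eq_sum_automorphisms, trace_eq_sum_automorphisms,
    sum_pow_char]
  exact Finset.sum_congr rfl fun σ _ => map_pow σ y p

/-- a point of `k` which is not of the form `x ^ p - x` -/
theorem add_criterion (hm : ¬ p ∣ finrank k K₀) {χ : AddChar K₀ L} (hχ : χ ≠ 1)
    (h0 : ∀ x, χ (x ^ p - x) = 1) {u : k} (hu : ∀ x : k, x ^ p - x ≠ u) :
    χ (algebraMap k K₀ u) ≠ 1 := by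
  classical
  have : Finite k := Finite.of_injective _ (algebraMap k K₀).injective
  have : CharP K₀ p := charP_of_injective_algebraMap (algebraMap k K₀).injective p
  intro hone
  -- the map `x ↦ x ^ p - x`
  let π : K₀ →+ K₀ := (frobenius K₀ p).toAddMonoidHom - AddMonoidHom.id K₀
  have hπ : ∀ x, π x = x ^ p - x := fun x => rfl
  let H : AddSubgroup K₀ :=
    { carrier := {x | χ x = 1}
      zero_mem' := AddChar.map_zero_eq_one χ
      add_mem' := by
        intro a b ha hb
        change χ (a + b) = 1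
        rw [AddChar.map_add_eq_mul, ha, hb, one_mul]
      neg_mem' := by
        intro a ha
        change χ (-a) = 1
        rw [AddChar.map_neg_eq_inv, ha, inv_one] }
  have hPH : π.range ≤ H := by
    rintro _ ⟨x, rfl⟩
    change χ (π x) = 1
    rw [hπ, h0]
  have huH : algebraMap k K₀ u ∈ H := hone
  have huP : algebraMap k K₀ u ∉ π.range := by
    rintro ⟨y, hy⟩
    rw [hπ] at hy
    have h1 := congrArg (Algebra.trace k K₀) hy
    rw [map_sub, trace_pow_char, Algebra.trace_algebraMap, nsmul_eq_mul] at h1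
    set v := Algebra.trace k K₀ y with hv
    have hm0 : ((finrank k K₀ : ℕ) : ZMod p) ≠ 0 := by
      rwa [Ne, ZMod.natCast_eq_zero_iff]
    set n : ℕ := (((finrank k K₀ : ℕ) : ZMod p)⁻¹).val with hn
    have hn1 : ((n * finrank k K₀ : ℕ) : k) = 1 := by
      have h2 : ((n * finrank k K₀ : ℕ) : ZMod p) = ((1 : ℕ) : ZMod p) := by
        rw [Nat.cast_mul, hn, ZMod.natCast_val, ZMod.cast_id', id, inv_mul_cancel₀ hm0,
          Nat.cast_one]
      rw [ZMod.natCast_eq_natCast_iff] at h2
      have h3 := (CharP.natCast_eq_natCast' k p h2)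
      rw [h3, Nat.cast_one]
    have hnp : ((n : ℕ) : k) ^ p = n := by
      have h2 : ((n ^ p : ℕ) : ZMod p) = ((n : ℕ) : ZMod p) := by
        rw [Nat.cast_pow, ZMod.pow_card]
      rw [ZMod.natCast_eq_natCast_iff] at h2
      have h3 := (CharP.natCast_eq_natCast' k p h2)
      rw [← Nat.cast_pow, h3]
    apply hu ((n : k) * v)
    rw [mul_pow, hnp, ← mul_sub, h1, ← mul_assoc, ← Nat.cast_mul, hn1, one_mul]
  -- indices
  have hker : Nat.card π.ker ≤ p := by
    have h1 : Nat.card π.ker ≤ Nat.card (Polynomial.X ^ p - Polynomial.X :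
        Polynomial K₀).roots.toFinset := by
      refine Nat.card_le_card_of_injective (fun x => ⟨x.1, ?_⟩) ?_
      · rw [Multiset.mem_toFinset, Polynomial.mem_roots
          (FiniteField.X_pow_card_sub_X_ne_zero K₀ hp.out.one_lt)]
        have h2 : π x.1 = 0 := x.2
        rw [hπ] at h2
        simpa using h2
      · intro x y hxy
        exact Subtype.ext (Subtype.mk.inj hxy)
    refine h1.trans ?_
    rw [Nat.card_eq_fintype_card, Fintype.card_coe]
    refine (Multiset.toFinset_card_le _).trans ((Polynomial.card_roots' _).trans ?_)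
    rw [FiniteField.X_pow_card_sub_X_natDegree_eq K₀ hp.out.one_lt]
  have hindex : π.range.index ≤ p := by
    have h1 := AddSubgroup.card_mul_index π.ker
    have h2 := AddSubgroup.card_mul_index π.range
    have h3 : π.ker.index = Nat.card π.range := AddSubgroup.index_ker π
    rw [h3] at h1
    have h4 : 0 < Nat.card π.range := Nat.card_pos
    have h5 : Nat.card π.range * π.range.index = Nat.card π.range * Nat.card π.ker := by
      rw [h2, ← h1, mul_comm]
    rw [Nat.eq_of_mul_eq_mul_left h4 h5]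
    exact hker
  have hrel : p ≤ π.range.relIndex H := by
    have h1 : π.range.relIndex H ∣ Nat.card K₀ := by
      refine dvd_trans ?_ (AddSubgroup.card_addSubgroup_dvd_card H)
      exact AddSubgroup.index_dvd_card _
    have := Fintype.ofFinite K₀
    obtain ⟨n, _, hn⟩ := FiniteField.card K₀ p
    rw [Nat.card_eq_fintype_card, hn, Nat.dvd_prime_pow hp.out] at h1
    obtain ⟨j, -, hj⟩ := h1
    rcases Nat.eq_zero_or_pos j with h2 | h2
    · rw [h2, pow_zero, AddSubgroup.relIndex_eq_one] at hj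
      exact absurd (hj huH) huP
    · rw [hj]
      exact Nat.le_self_pow h2.ne' p
  have hmul := AddSubgroup.relIndex_mul_index hPH
  have hH0 : H.index ≠ 0 := AddSubgroup.index_ne_zero_of_finite
  have hH1 : H.index = 1 := by
    have h1 : p * H.index ≤ p * 1 := by
      rw [mul_one]
      calc p * H.index ≤ π.range.relIndex H * H.index := Nat.mul_le_mul_right _ hrel
        _ = π.range.index := hmul
        _ ≤ p := hindex
    have h2 := Nat.le_of_mul_le_mul_left h1 hp.out.pos
    omega
  rw [AddSubgroup.index_eq_one] at hH1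
  apply hχ
  apply DFunLike.ext
  intro x
  have hx : x ∈ H := by rw [hH1]; exact AddSubgroup.mem_top x
  exact hx

end add

section mul

/-- arithmetic -/
theorem dvd_aux {r f a q s : ℕ} (hr : r.Prime) (hrq : r ∣ q) (hq : 0 < q)
    (ha : r ^ (f + 1) ∣ a) (h : s * q ∣ a * q) (hm : ¬ r ^ (f + 1) ∣ s) :
    s * q ∣ a * (q / r) := by
  have h1 : s ∣ a := Nat.dvd_of_mul_dvd_mul_right hq h
  obtain ⟨b, rfl⟩ := h1
  have h2 : r ∣ b := by
    by_contra hb
    have hcop : Nat.Coprime (r ^ (f + 1)) b :=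
      Nat.Coprime.pow_left _ ((Nat.Prime.coprime_iff_not_dvd hr).2 hb)
    exact hm (hcop.dvd_of_dvd_mul_right ha)
  obtain ⟨c, rfl⟩ := h2
  obtain ⟨d, rfl⟩ := hrq
  rw [Nat.mul_div_cancel_left _ hr.pos]
  exact ⟨c, by ring⟩

/-- powers in a cyclic group -/
theorem exists_root_of_pow {A : Type*} [CommGroup A] [Finite A] [IsCyclic A] {r : ℕ}
    (hr : 0 < r) (h : r ∣ Nat.card A) {u : A} (hu : u ^ (Nat.card A / r) = 1) :
    ∃ x : A, x ^ r = u := by
  obtain ⟨g, hg⟩ := IsCyclic.exists_generator (α := A)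
  obtain ⟨b, hb⟩ := (Submonoid.mem_powers_iff _ _).1 ((mem_powers_iff_mem_zpowers).2 (hg u))
  have hord : orderOf g = Nat.card A := orderOf_eq_card_of_forall_mem_zpowers hg
  rw [← hb, ← pow_mul, ← orderOf_dvd_iff_pow_eq_one, hord] at hu
  have h1 : r ∣ b := by
    have h2 : Nat.card A / r * r ∣ Nat.card A / r * b := by
      rw [Nat.div_mul_cancel h, mul_comm _ b]
      exact hu
    exact Nat.dvd_of_mul_dvd_mul_left (Nat.div_pos (Nat.le_of_dvd Nat.card_pos h) hr) h2
  obtain ⟨c, rfl⟩ := h1
  exact ⟨g ^ c, by rw [← pow_mul, mul_comm c, hb]⟩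

variable {k K₀ L : Type} [Field k] [Field K₀] [Finite K₀] [Algebra k K₀] [Field L]

/-- a point of `k` which is not an `r`-th power -/
theorem mul_criterion {r f : ℕ} (hr : r.Prime) (hq : r ∣ Nat.card k - 1) {ψ : K₀ˣ →* Lˣ}
    (h1 : ψ ^ r ^ (f + 1) = 1) (h0 : ψ ^ r ^ f ≠ 1)
    (hm : ¬ r ^ (f + 1) ∣ (Nat.card K₀ - 1) / (Nat.card k - 1)) {u : kˣ}
    (hu : ∀ x : kˣ, x ^ r ≠ u) : ψ (Units.map (algebraMap k K₀) u) ≠ 1 := by
  classical
  have : Finite k := Finite.of_injective _ (algebraMap k K₀).injective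
  have : Fact r.Prime := ⟨hr⟩
  intro hone
  set U : K₀ˣ := Units.map (algebraMap k K₀ : k →* K₀) u with hU
  obtain ⟨g, hg⟩ := IsCyclic.exists_generator (α := K₀ˣ)
  have hord : orderOf g = Nat.card K₀ - 1 := by
    rw [orderOf_eq_card_of_forall_mem_zpowers hg, Nat.card_units]
  have hall : ∀ N : ℕ, ψ ^ N = 1 ↔ ψ g ^ N = 1 := by
    intro N
    constructor
    · intro h
      rw [← MonoidHom.pow_apply, h, MonoidHom.one_apply]
    · intro h
      apply MonoidHom.ext
      intro x
      obtain ⟨b, rfl⟩ := (Submonoid.mem_powers_iff _ _).1 ((mem_powers_iff_mem_zpowers).2 (hg x))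
      rw [MonoidHom.pow_apply, map_pow, ← pow_mul, mul_comm, pow_mul, h, one_pow,
        MonoidHom.one_apply]
  have hψord : orderOf (ψ g) = r ^ (f + 1) := by
    apply orderOf_eq_prime_pow
    · rw [← hall]; exact h0
    · rw [← hall]; exact h1
  obtain ⟨a, ha⟩ := (Submonoid.mem_powers_iff _ _).1 ((mem_powers_iff_mem_zpowers).2 (hg U))
  have hda : r ^ (f + 1) ∣ a := by
    rw [← hψord, orderOf_dvd_iff_pow_eq_one, ← map_pow, ha]
    exact hone
  have hcu : Nat.card kˣ = Nat.card k - 1 := Nat.card_units k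
  have huq : u ^ (Nat.card k - 1) = 1 := by
    rw [← hcu]; exact pow_card_eq_one'
  have hQa : Nat.card K₀ - 1 ∣ a * (Nat.card k - 1) := by
    rw [← hord, orderOf_dvd_iff_pow_eq_one, pow_mul, ha, hU, ← map_pow, huq, map_one]
  have hK : 1 < Nat.card K₀ := Finite.one_lt_card
  have hk : 1 < Nat.card k := Finite.one_lt_card
  have hcard : Nat.card K₀ = Nat.card k ^ finrank k K₀ := by
    have := Fintype.ofFinite k
    have := Fintype.ofFinite K₀
    rw [Nat.card_eq_fintype_card, Nat.card_eq_fintype_card, Module.card_eq_pow_finrank (K := k)]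
  have hs : (Nat.card K₀ - 1) / (Nat.card k - 1) * (Nat.card k - 1) = Nat.card K₀ - 1 := by
    rw [hcard]
    exact Nat.div_mul_cancel (Nat.sub_one_dvd_pow_sub_one _ _)
  have hkey := dvd_aux (s := (Nat.card K₀ - 1) / (Nat.card k - 1)) hr hq (by omega) hda
    (by rw [hs]; exact hQa) hm
  rw [hs] at hkey
  have hU1 : U ^ ((Nat.card k - 1) / r) = 1 := by
    rw [← ha, ← pow_mul, ← orderOf_dvd_iff_pow_eq_one, hord]
    exact hkey
  have hu1 : u ^ (Nat.card kˣ / r) = 1 := by
    rw [hcu]
    have hinj : Function.Injective (Units.map (algebraMap k K₀ : k →* K₀)) :=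
      Units.map_injective (algebraMap k K₀).injective
    apply hinj
    rw [map_pow, map_one]
    exact hU1
  obtain ⟨x, hx⟩ := exists_root_of_pow hr.pos (by rw [hcu]; exact hq) hu1
  exact hu x hx

end mul

end Pool.Agent.Helper41.ST
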